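import Pool.Agent.H18.HX.Targets
import Pool.Agent.H8.HIT.Core

/-!
# Dense orbits on arbitrary varieties: elementary lemmas
-/

open MvPolynomial
open Pool.Agent.H12.ZD (pmap v O Res DenseOrbit NoInv)
open Pool.Agent.H18.HIT

namespace Pool.Agent.H18.HX

section general

variable {L : ℕ} {k : Type} [Field k] {I : Ideal (Po L k)} {f g : Tup L k}

theorem Slf.iff (h : Slf I f) (c : Po L k) : aeval f c ∈ I ↔ c ∈ I := ⟨h.inj c, h.inv c⟩

theorem Slf.it (h : Slf I f) (n : ℕ) : Slf I (it f n) := by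
  constructor
  · intro c hc
    induction n with
    | zero =>
      rw [it_zero, aeval_X_left_apply]
      exact hc
    | succ n ih =>
      rw [aeval_it_succ']
      exact h.inv _ ih
  · intro c hc
    induction n with
    | zero =>
      rw [it_zero, aeval_X_left_apply] at hc
      exact hc
    | succ n ih =>
      rw [aeval_it_succ'] at hc
      exact ih (h.inj _ hc)

/-- congruent tuples -/
theorem aeval_congr (h : ∀ i, f i - g i ∈ I) (c : Po L k) : aeval f c - aeval g c ∈ I := by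
  rw [← Ideal.Quotient.eq]
  have h1 : ∀ i, Ideal.Quotient.mk I (f i) = Ideal.Quotient.mk I (g i) :=
    fun i => Ideal.Quotient.eq.mpr (h i)
  have h2 : (Ideal.Quotient.mkₐ k I).comp (aeval f : Po L k →ₐ[k] Po L k) =
      (Ideal.Quotient.mkₐ k I).comp (aeval g : Po L k →ₐ[k] Po L k) := by
    apply algHom_ext
    intro i
    rw [AlgHom.comp_apply, AlgHom.comp_apply, aeval_X, aeval_X]
    exact h1 i
  exact DFunLike.congr_fun h2 c

theorem Slf.congr (hf : Slf I f) (h : ∀ i, g i - f i ∈ I) : Slf I g := by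
  constructor
  · intro c hc
    have h1 := I.add_mem (aeval_congr h c) (hf.inv c hc)
    rwa [sub_add_cancel] at h1
  · intro c hc
    apply hf.inj
    have h1 := I.sub_mem hc (aeval_congr h c)
    rwa [sub_sub_cancel] at h1

theorem zer_pmap (hf : ∀ c ∈ I, aeval f c ∈ I) {x : Fin L → k} (hx : Zer I x) :
    Zer I (pmap f x) := by
  intro c hc
  rw [← eval_aeval]
  exact hx _ (hf c hc)

theorem zer_iterate (hf : ∀ c ∈ I, aeval f c ∈ I) {x : Fin L → k} (hx : Zer I x) (n : ℕ) :
    Zer I ((pmap f)^[n] x) := by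
  induction n with
  | zero => exact hx
  | succ n ih =>
    rw [Function.iterate_succ_apply']
    exact zer_pmap hf ih

theorem pmap_congr (h : ∀ i, g i - f i ∈ I) {x : Fin L → k} (hx : Zer I x) :
    pmap g x = pmap f x := by
  funext i
  have h1 := hx _ (h i)
  rw [map_sub, sub_eq_zero] at h1
  exact h1

theorem iterate_congr (hf : ∀ c ∈ I, aeval f c ∈ I) (h : ∀ i, g i - f i ∈ I) {x : Fin L → k}
    (hx : Zer I x) (n : ℕ) : (pmap g)^[n] x = (pmap f)^[n] x := by
  induction n with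
  | zero => rfl
  | succ n ih =>
    rw [Function.iterate_succ_apply', Function.iterate_succ_apply', ih,
      pmap_congr h (zer_iterate hf hx n)]

theorem Cvi.congr {e : ℕ} (hc : Cvi I f e) (h : ∀ i, g i - f i ∈ I) : Cvi I g e := by
  obtain ⟨c, hcI, hc⟩ := hc
  refine ⟨c, hcI, fun y hy hy' => ?_⟩
  obtain ⟨S, hS, hS'⟩ := hc y hy hy'
  exact ⟨S, hS, fun x hx => ⟨(hS' x hx).1, by rw [pmap_congr h (hS' x hx).1, (hS' x hx).2]⟩⟩

theorem slf_of_cvi [IsAlgClosed k] (hNSI : T_NSI) [I.IsPrime] {e : ℕ} (he : 1 ≤ e)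
    (hf : ∀ c ∈ I, aeval f c ∈ I) (hc : Cvi I f e) : Slf I f := by
  refine ⟨hf, fun c hcf => ?_⟩
  by_contra hcI
  obtain ⟨c₀, hc₀, hc⟩ := hc
  obtain ⟨y, hy, hyc⟩ := hNSI L k I (c * c₀) (fun h => (Ideal.IsPrime.mem_or_mem ‹_› h).elim hcI hc₀)
  rw [map_mul] at hyc
  obtain ⟨S, hS, hS'⟩ := hc y hy (right_ne_zero_of_mul hyc)
  obtain ⟨x, hx⟩ := Finset.card_pos.mp (by omega : 0 < S.card)
  apply left_ne_zero_of_mul hyc
  rw [← (hS' x hx).2, ← eval_aeval]
  exact (hS' x hx).1 _ hcf

end general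

section hypersurface

variable {L : ℕ} {k : Type} [Field k] {P : Po L k}

theorem isPrime_span (hP : Irreducible P) : (Ideal.span {P}).IsPrime :=
  (Ideal.span_singleton_prime hP.ne_zero).mpr hP.prime

theorem zer_span {x : Fin L → k} : Zer (Ideal.span {P}) x ↔ eval x P = 0 := by
  constructor
  · intro h
    exact h P (Ideal.mem_span_singleton_self P)
  · intro h q hq
    obtain ⟨a, rfl⟩ := Ideal.mem_span_singleton.mp hq
    rw [map_mul, h, zero_mul]

theorem inv_span {F : Tup L k} (h : P ∣ aeval F P) : ∀ c ∈ Ideal.span {P}, aeval F c ∈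
    Ideal.span {P} := by
  intro c hc
  obtain ⟨a, rfl⟩ := Ideal.mem_span_singleton.mp hc
  rw [map_mul]
  exact Ideal.mem_span_singleton.mpr (h.mul_right _)

end hypersurface

theorem det_homogeneous {n L : ℕ} {k : Type} [CommRing k] (M : Matrix (Fin n) (Fin n) (Po L k))
    (e : ℕ) (h : ∀ i j, (M i j).IsHomogeneous e) : M.det.IsHomogeneous (n * e) := by
  rw [Matrix.det_apply]
  apply IsHomogeneous.sum
  intro σ _
  have h1 : (∏ i, M (σ i) i).IsHomogeneous (∑ _i : Fin n, e) :=
    IsHomogeneous.prod _ _ _ fun i _ => h _ _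
  rw [Finset.sum_const, Finset.card_univ, Fintype.card_fin, smul_eq_mul] at h1
  rcases Int.units_eq_one_or (Equiv.Perm.sign σ) with h2 | h2
  · rw [h2, one_smul]
    exact h1
  · rw [h2, Units.neg_smul, one_smul]
    exact (homogeneousSubmodule (Fin L) k (n * e)).neg_mem h1

theorem jac_homogeneous {L d : ℕ} {k : Type} [CommRing k] (F : Tup L k)
    (h : ∀ i, (F i).IsHomogeneous d) : ∃ m, (jac F).IsHomogeneous m := by
  refine ⟨L * (d - 1), det_homogeneous _ (d - 1) fun i j => ?_⟩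
  exact (h i).pderiv

end Pool.Agent.H18.HX
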