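import Pool.Agent.H18.HX.Var

/-!
# Dense orbits on arbitrary varieties: the theorems
-/

open MvPolynomial
open Pool.Agent.H12.ZD (pmap v O Res DenseOrbit NoInv)
open Pool.Agent.H18.HIT

namespace Pool.Agent.H18.HX

section

variable {L : ℕ} {k : Type} [Field k] {I : Ideal (Po L k)}

theorem Pvi.cvi {f : Tup L k} {e : ℕ} (h : Pvi I f e) : Cvi I f e := by
  obtain ⟨c, hc, h⟩ := h
  refine ⟨c, hc, fun y hy hyc => ?_⟩
  obtain ⟨S, hS, hS', -⟩ := h y hy hyc
  exact ⟨S, hS, hS'⟩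

theorem Cvi.mono {f : Tup L k} {e e' : ℕ} (h : Cvi I f e) (he : e' ≤ e) : Cvi I f e' := by
  obtain ⟨c, hc, h⟩ := h
  refine ⟨c, hc, fun y hy hyc => ?_⟩
  obtain ⟨S, hS, hS'⟩ := h y hy hyc
  obtain ⟨T, hT, hT'⟩ := Finset.exists_subset_card_eq (hS ▸ he)
  exact ⟨T, hT', fun x hx => hS' x (hT hx)⟩

/-- a representative of the same rational map maps the variety to itself -/
theorem inv_of_cross [hI : I.IsPrime] (hhom : ∀ c ∈ I, ∀ t, homogeneousComponent t c ∈ I)
    {f g : Tup L k} (hinv : ∀ c ∈ I, aeval f c ∈ I) (hcross : ∀ i j, f i * g j - f j * g i ∈ I)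
    (hne : ∃ j, f j ∉ I) : ∀ c ∈ I, aeval g c ∈ I := by
  intro c hc
  obtain ⟨j, hj⟩ := hne
  rw [← sum_homogeneousComponent c, map_sum]
  apply Ideal.sum_mem
  intro t _
  have hct := hhom c hc t
  have hth : (homogeneousComponent t c).IsHomogeneous t := homogeneousComponent_isHomogeneous t c
  have h1 : aeval (fun i => f j * g i) (homogeneousComponent t c) -
      aeval (fun i => g j * f i) (homogeneousComponent t c) ∈ I := by
    apply aeval_congr
    intro i
    have h2 := hcross j i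
    have h3 : f j * g i - g j * f i = f j * g i - f i * g j := by ring
    rw [h3]
    exact h2
  rw [aeval_mul_of_hom hth, aeval_mul_of_hom hth] at h1
  have h4 := I.add_mem h1 (I.mul_mem_left (g j ^ t) (hinv _ hct))
  rw [sub_add_cancel] at h4
  rcases hI.mem_or_mem h4 with h5 | h5
  · exact absurd (hI.mem_of_pow_mem t h5) hj
  · exact h5

theorem mk_evg {N : ℕ} (g : Fin N → Po L k) (θ : Po L k) (Q : Polynomial (Po N k)) :
    Ideal.Quotient.mk I (evg g θ Q) = Q.eval₂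
      ((Ideal.Quotient.mk I).comp (aeval g : Po N k →ₐ[k] Po L k).toRingHom)
      (Ideal.Quotient.mk I θ) := Polynomial.hom_eval₂ _ _ _ _

/-- everything is integral if the variables are integral -/
theorem int_all {N : ℕ} {g : Fin N → Po L k}
    (hint : ∀ i, ∃ Q : Polynomial (Po N k), Q.Monic ∧ evg g (X i) Q ∈ I) (q : Po L k) :
    ∃ Q : Polynomial (Po N k), Q.Monic ∧ evg g q Q ∈ I := by
  have h1 : ((Ideal.Quotient.mk I).comp (aeval g : Po N k →ₐ[k] Po L k).toRingHom).IsIntegralElem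
      (Ideal.Quotient.mk I q) := by
    induction q using MvPolynomial.induction_on with
    | C a =>
      have h2 : Ideal.Quotient.mk I (C a) =
          ((Ideal.Quotient.mk I).comp (aeval g : Po N k →ₐ[k] Po L k).toRingHom) (C a) := by
        change _ = Ideal.Quotient.mk I (aeval g (C a))
        rw [aeval_C, algebraMap_eq]
      rw [h2]
      exact RingHom.isIntegralElem_map _
    | add p q hp hq =>
      rw [map_add]
      exact hp.add _ hq
    | mul_X p i hp =>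
      rw [map_mul]
      refine hp.mul _ ?_
      obtain ⟨Q, hQ, hQ'⟩ := hint i
      exact ⟨Q, hQ, by rw [← mk_evg]; exact Ideal.Quotient.eq_zero_iff_mem.mpr hQ'⟩
  obtain ⟨Q, hQ, hQ'⟩ := h1
  refine ⟨Q, hQ, ?_⟩
  rw [← mk_evg] at hQ'
  exact Ideal.Quotient.eq_zero_iff_mem.mp hQ'

theorem dim_le {N n : ℕ} {l : Fin N → Po L k} (hl : ∀ q : Po N k, aeval l q ∈ I → q = 0)
    (hdim : ∀ u : Fin (n + 2) → Po L k, ∃ q : Po (n + 2) k, q ≠ 0 ∧ aeval u q ∈ I) :
    N ≤ n + 1 := by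
  by_contra hlt
  have hle : n + 2 ≤ N := by omega
  obtain ⟨q, hq, hq'⟩ := hdim fun j => l (Fin.castLE hle j)
  apply hq
  have h1 : aeval l (rename (Fin.castLE hle) q) ∈ I := by
    rw [aeval_rename]
    exact hq'
  have h2 := hl _ h1
  exact rename_injective _ (Fin.castLE_injective hle) (h2.trans (map_zero _).symm)

end

section

variable {L : ℕ} {k : Type} [Field k] [IsAlgClosed k] [CharZero k] {I : Ideal (Po L k)}

/-- rational self-maps of arbitrary varieties -/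
theorem var2 (hX : T_XK) (hNSI : T_NSI) (hPVI : T_PVI) (hPVR : T_PVR) (hNFA : T_NFA)
    (hNFB : T_NFB) (hNFC : T_NFC) (hLFT : T_LFT) (hTWI : T_TWI) (hTRV : T_TRV)
    (hI : I.IsPrime) (hhom : ∀ c ∈ I, ∀ t, homogeneousComponent t c ∈ I) (hne : ∃ i, X i ∉ I)
    (f g : Tup L k) (b : Po L k) (d dg e m n t : ℕ) (hf : ∀ i, (f i).IsHomogeneous d)
    (hinv : ∀ c ∈ I, aeval f c ∈ I) (hcov : Pvi I f e)
    (hdim : ∀ u : Fin (n + 2) → Po L k, ∃ q : Po (n + 2) k, q ≠ 0 ∧ aeval u q ∈ I)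
    (hg : ∀ i, (g i).IsHomogeneous dg) (hdg : 1 ≤ dg) (hgI : ∃ i, g i ∉ I)
    (hcross : ∀ i j, it f m i * g j - it f m j * g i ∈ I) (hdeg : dg ^ (n - 1) < e ^ m)
    (hb : b.IsHomogeneous t) (hbI : b ∉ I) :
    ∃ x : Fin L → k, Zer I x ∧ (∀ j : ℕ, (pmap f)^[j] x ≠ 0) ∧
      (∀ j : ℕ, eval ((pmap f)^[j] x) b ≠ 0) ∧
      ∀ (s : ℕ) (h : Po L k), h.IsHomogeneous s → (∀ j : ℕ, eval ((pmap f)^[j] x) h = 0) →
        h ∈ I := by
  have hpow : 1 ≤ dg ^ (n - 1) := Nat.one_le_pow _ _ hdg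
  have hem : 1 ≤ e ^ m := by omega
  have he : 1 ≤ e := by
    rcases Nat.eq_zero_or_pos e with h0 | h0
    · subst h0
      rcases Nat.eq_zero_or_pos m with h1 | h1
      · subst h1
        omega
      · rw [zero_pow (by omega)] at hem
        omega
    · exact h0
  have hsf : Slf I f := slf_of_cvi hNSI he hinv hcov.cvi
  have hsm := hsf.it m
  obtain ⟨i0, hi0⟩ := hne
  -- some component of the iterate is not in the ideal
  have hfm : ∃ j, it f m j ∉ I := by
    refine ⟨i0, fun h => hi0 (hsm.inj _ ?_)⟩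
    rw [aeval_X]
    exact h
  have hginv := inv_of_cross hhom hsm.inv hcross hfm
  have hcovm := hPVI L d e m k I f hf hsf hcov
  have hcovg := hPVR L (d ^ m) dg (e ^ m) k I (it f m) g hhom (it_hom hf m) hg hdg hsm hcross hgI
    hcovm
  have hsg : Slf I g := slf_of_cvi hNSI hem hginv hcovg.cvi
  obtain ⟨N, l, hN, hl1, hind, hint, hden⟩ := hNFA L k I hhom ⟨i0, hi0⟩
  have hl0 : ∃ Q : Polynomial (Po N k), Q.Monic ∧
      evg (fun j : Fin N => l j.succ) (l 0) Q ∈ I := int_all hint _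
  obtain ⟨P, r, hP, hker⟩ := hNFB L N k I l hhom hl1 hind hl0
  obtain ⟨Δ, δ, hpro⟩ := hNFC L N r k I l P hN hhom hl1 hind hint hden hP hker
  have hNn := dim_le hind hdim
  have hnum : N = 1 ∨ dg ^ (N - 2) < e ^ m := by
    rcases Nat.lt_or_ge N 2 with h | h
    · left
      omega
    · right
      exact lt_of_le_of_lt (Nat.pow_le_pow_right hdg (by omega)) hdeg
  set B : Po L k := b * X i0 with hBdef
  have hBh : B.IsHomogeneous (t + 1) := hb.mul (isHomogeneous_X k i0)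
  have hBI : B ∉ I := fun h => (hI.mem_or_mem h).elim hbI hi0
  have hB1h : (∏ i ∈ Finset.range (m + 1), aeval (it f i) B).IsHomogeneous
      (∑ i ∈ Finset.range (m + 1), d ^ i * (t + 1)) :=
    IsHomogeneous.prod _ _ _ fun i _ => aeval_hom (it_hom hf i) hBh
  have hB1I : (∏ i ∈ Finset.range (m + 1), aeval (it f i) B) ∉ I :=
    prod_notMem _ _ fun i _ hi => hBI ((hsf.it i).inj B hi)
  obtain ⟨a, ha, hab, had⟩ := var1 hX hPVI hLFT hTWI hTRV hhom hpro hg hdg hsg hem hcovg hnum _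
    _ hB1h hB1I
  have hm : 1 ≤ m := by
    by_contra h0
    have h1 : m = 0 := by omega
    subst h1
    rw [pow_zero] at hdeg
    omega
  have hBx : ∀ (n i : ℕ), i ≤ m → eval ((pmap f)^[i] ((pmap g)^[n] a)) B ≠ 0 := by
    intro n i hi
    have h1 := hab n
    rw [map_prod, Finset.prod_ne_zero_iff] at h1
    have h2 := h1 i (Finset.mem_range.mpr (by omega))
    rwa [eval_aeval, pmap_it] at h2
  have hne0 : ∀ x : Fin L → k, eval x B ≠ 0 → x ≠ 0 := by
    rintro x hx rfl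
    apply hx
    rw [hBdef, map_mul, eval_X, Pi.zero_apply, mul_zero]
  have hstep : ∀ n, ∃ c : k, c ≠ 0 ∧ (pmap f)^[m] ((pmap g)^[n] a) =
      fun i => c * (pmap g)^[n + 1] a i := by
    intro n
    have hz := zer_iterate hginv ha n
    have h1 : (pmap g)^[n + 1] a ≠ 0 := hne0 _ (hBx (n + 1) 0 (Nat.zero_le _))
    have h2 : (pmap f)^[m] ((pmap g)^[n] a) ≠ 0 := hne0 _ (hBx n m le_rfl)
    obtain ⟨j, hj⟩ := Function.ne_iff.mp h1
    rw [Pi.zero_apply] at hj
    have h3 : ∀ i, (pmap f)^[m] ((pmap g)^[n] a) i * (pmap g)^[n + 1] a j =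
        (pmap f)^[m] ((pmap g)^[n] a) j * (pmap g)^[n + 1] a i := by
      intro i
      have h4 := hz _ (hcross i j)
      rw [map_sub, map_mul, map_mul, sub_eq_zero] at h4
      have h5 : ∀ i, eval ((pmap g)^[n] a) (it f m i) = (pmap f)^[m] ((pmap g)^[n] a) i := by
        intro i
        exact congrFun (pmap_it f m ((pmap g)^[n] a)) i
      have h6 : ∀ i, eval ((pmap g)^[n] a) (g i) = (pmap g)^[n + 1] a i := by
        intro i
        rw [Function.iterate_succ_apply']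
        rfl
      rw [h5, h5, h6, h6] at h4
      exact h4
    have h7 : (pmap f)^[m] ((pmap g)^[n] a) = fun i =>
        ((pmap f)^[m] ((pmap g)^[n] a) j / (pmap g)^[n + 1] a j) * (pmap g)^[n + 1] a i := by
      funext i
      rw [div_mul_eq_mul_div, eq_div_iff hj]
      exact h3 i
    refine ⟨_, ?_, h7⟩
    intro h0
    apply h2
    rw [h7, h0]
    funext i
    rw [zero_mul, Pi.zero_apply]
  have horb : ∀ n, ∃ c : k, c ≠ 0 ∧ (pmap f)^[m * n] a = fun i => c * (pmap g)^[n] a i := by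
    intro n
    induction n with
    | zero =>
      refine ⟨1, one_ne_zero, ?_⟩
      funext i
      rw [one_mul]
      rfl
    | succ n ih =>
      obtain ⟨c, hc, hc'⟩ := ih
      obtain ⟨c₁, hc₁, hc₁'⟩ := hstep n
      refine ⟨c ^ (d ^ m) * c₁, mul_ne_zero (pow_ne_zero _ hc) hc₁, ?_⟩
      rw [Nat.mul_succ, Nat.add_comm (m * n) m, Function.iterate_add_apply, hc',
        pmap_it_smul hf, hc₁']
      funext i
      ring
  have hBf : ∀ j, eval ((pmap f)^[j] a) B ≠ 0 := by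
    intro j
    obtain ⟨c, hc, hc'⟩ := horb (j / m)
    have h1 : (pmap f)^[j] a = (pmap f)^[j % m] ((pmap f)^[m * (j / m)] a) := by
      rw [← Function.iterate_add_apply, Nat.mod_add_div]
    rw [h1, hc', pmap_it_smul hf, eval_smul_of_hom hBh]
    exact mul_ne_zero (pow_ne_zero _ (pow_ne_zero _ hc))
      (hBx (j / m) (j % m) (Nat.mod_lt _ hm).le)
  refine ⟨a, ha, fun j => hne0 _ (hBf j), fun j => ?_, fun s h hh hh0 => ?_⟩
  · have h1 := hBf j
    rw [hBdef, map_mul] at h1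
    exact left_ne_zero_of_mul h1
  · apply had s h hh
    intro n
    obtain ⟨c, hc, hc'⟩ := horb n
    have h1 := hh0 (m * n)
    rw [hc', eval_smul_of_hom hh] at h1
    exact (mul_eq_zero.mp h1).resolve_left (pow_ne_zero _ hc)

/-- polarised endomorphisms -/
theorem var3 (hX : T_XK) (hPVI : T_PVI) (hNFA : T_NFA)
    (hNFB : T_NFB) (hNFC : T_NFC) (hLFT : T_LFT) (hTWI : T_TWI) (hTRV : T_TRV) (hINR : T_INR)
    (hPEI : T_PEI) (hCVD : T_CVD) (hDGX : T_DGX) (hPOL : T_POL)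
    (hI : I.IsPrime) (hhom : ∀ c ∈ I, ∀ t, homogeneousComponent t c ∈ I) (hne : ∃ i, X i ∉ I)
    (f : Tup L k) (b : Po L k) (q t : ℕ) (hq : 2 ≤ q) (hf : ∀ i, (f i).IsHomogeneous q)
    (hinv : ∀ c ∈ I, aeval f c ∈ I) (hbase : ∀ x, Zer I x → pmap f x = 0 → x = 0)
    (hb : b.IsHomogeneous t) (hbI : b ∉ I) :
    ∃ x : Fin L → k, Zer I x ∧ x ≠ 0 ∧ (∀ j : ℕ, eval ((pmap f)^[j] x) b ≠ 0) ∧
      ∀ (s : ℕ) (h : Po L k), h.IsHomogeneous s → (∀ j : ℕ, eval ((pmap f)^[j] x) h = 0) →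
        h ∈ I := by
  obtain ⟨N, l, hN, hl1, hind, hint, hden⟩ := hNFA L k I hhom hne
  have hl0 : ∃ Q : Polynomial (Po N k), Q.Monic ∧
      evg (fun j : Fin N => l j.succ) (l 0) Q ∈ I := int_all hint _
  obtain ⟨P, r, hP, hker⟩ := hNFB L N k I l hhom hl1 hind hl0
  obtain ⟨Δ, δ, hpro⟩ := hNFC L N r k I l P hN hhom hl1 hind hint hden hP hker
  have hs : Slf I f := hINR L N q k I (fun j => l j.succ) f hN (by omega)
    (fun i => hl1 _) hhom hind hint hf hbase hinv
  obtain ⟨e, θ, he, hP2, hP3⟩ := hPEI L k I f hs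
  have hqe := hDGX L N q e k I (fun j => l j.succ) f θ hN hq (fun i => hl1 _) hhom hind hf hbase
    hs hP2
  have hcov := (hCVD L e k I f θ hs he hP2 hP3).mono hqe
  have hN1 : N = N - 1 + 1 := by omega
  rw [hN1] at hcov
  have hpv := hPOL L (N - 1) q k I f (by omega) hf hne hI hcov
  obtain ⟨i0, hi0⟩ := hne
  have hnum : N = 1 ∨ q ^ (N - 2) < q ^ (N - 1) := by
    rcases Nat.lt_or_ge N 2 with h | h
    · left
      omega
    · right
      exact Nat.pow_lt_pow_right (by omega) (by omega)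
  obtain ⟨a, ha, hab, had⟩ := var1 hX hPVI hLFT hTWI hTRV hhom hpro hf (by omega) hs
    (Nat.one_le_pow _ _ (by omega)) hpv hnum (t + 1) (b * X i0) (hb.mul (isHomogeneous_X k i0))
    (fun h => (hI.mem_or_mem h).elim hbI hi0)
  refine ⟨a, ha, ?_, fun j => ?_, had⟩
  · rintro rfl
    apply hab 0
    rw [Function.iterate_zero_apply, map_mul, eval_X, Pi.zero_apply, mul_zero]
  · have h1 := hab j
    rw [map_mul] at h1
    exact left_ne_zero_of_mul h1

end

end Pool.Agent.H18.HX
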