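import Pool.Agent.H18.HX.AsmX

/-!
# Dense orbits on arbitrary varieties: the hypersurface theorem, end of the proof
-/

open MvPolynomial
open Pool.Agent.H12.ZD (pmap v O Res DenseOrbit NoInv)
open Pool.Agent.H18.HIT

namespace Pool.Agent.H18.HX

/-- the equation of the hypersurface in the disc -/
noncomputable def pp {N : ℕ} (P : Po (N + 1) Qb) {p : Nat.Primes} (a : Fin (N + 1) → O p) :
    Po (N + 1) Qb :=
  C (((((p : ℕ) : Qb) ^ 2) ^ (finSuccEquiv Qb N P).natDegree)⁻¹) *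
    aeval (lt (cO a) (((p : ℕ) : Qb) ^ 2)) P

section

variable {N r d : ℕ} {P b : Po (N + 1) Qb} {F : Tup (N + 1) Qb} {p : Nat.Primes}
  {P₀ : Po (N + 1) (O p)} {k : ℕ} {a : Fin (N + 1) → O p} {H : Tup (N + 1) (O p)}

theorem pp_unit (P : Po (N + 1) Qb) (p : Nat.Primes) :
    IsUnit (C (((((p : ℕ) : Qb) ^ 2) ^ (finSuccEquiv Qb N P).natDegree)⁻¹) : Po (N + 1) Qb) := by
  rw [isUnit_map_iff, isUnit_iff_ne_zero]
  exact inv_ne_zero (pow_ne_zero _ (p_ne p))

theorem pp_dvd (P : Po (N + 1) Qb) (a : Fin (N + 1) → O p) (q : Po (N + 1) Qb) :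
    pp P a ∣ aeval (lt (cO a) (((p : ℕ) : Qb) ^ 2)) q ↔ P ∣ q := by
  rw [← dvd_lt (cO a) (p_ne p) P q, pp]
  exact (pp_unit P p).mul_left_dvd

theorem pp_irr (hP : Irreducible P) (a : Fin (N + 1) → O p) : Irreducible (pp P a) :=
  (irreducible_isUnit_mul (pp_unit P p)).mpr (irreducible_lt (cO a) (p_ne p) hP)

theorem pp_mon (hP : Mny P) (a : Fin (N + 1) → O p) : Mny (pp P a) :=
  monic_lt (cO a) (p_ne p) hP

theorem eval_pp (P : Po (N + 1) Qb) (a : Fin (N + 1) → O p) (x : Fin (N + 1) → Qb) :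
    eval x (pp P a) = 0 ↔ eval (fun i => cO a i + ((p : ℕ) : Qb) ^ 2 * x i) P = 0 := by
  rw [pp, map_mul, eval_C, eval_lt]
  refine ⟨fun h => (mul_eq_zero.mp h).resolve_left (inv_ne_zero (pow_ne_zero _ (p_ne p))),
    fun h => by rw [h, mul_zero]⟩

theorem conj_aeval (h : Flo P b F d p P₀ k a H) (q : Po (N + 1) Qb) :
    aeval (flQ p H) (aeval (lt (cO a) (((p : ℕ) : Qb) ^ 2)) q) =
      aeval (lt (cO a) (((p : ℕ) : Qb) ^ 2)) (aeval (it F k) q) := by
  rw [← aeval_comp, ← aeval_comp, h.conj]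

theorem conj_pt (h : Flo P b F d p P₀ k a H) (x : Fin (N + 1) → Qb) :
    (pmap F)^[k] (fun i => cO a i + ((p : ℕ) : Qb) ^ 2 * x i) =
      fun i => cO a i + ((p : ℕ) : Qb) ^ 2 * pmap (flQ p H) x i := by
  have h1 : ∀ y : Fin (N + 1) → Qb, pmap (lt (cO a) (((p : ℕ) : Qb) ^ 2)) y =
      fun i => cO a i + ((p : ℕ) : Qb) ^ 2 * y i := by
    intro y
    funext i
    simp [pmap, lt]
  have h2 := congrArg (fun f => pmap f x) h.conj
  simp only [pmap_comp, h1, pmap_it] at h2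
  exact h2

theorem conj_orb (h : Flo P b F d p P₀ k a H) (x : Fin (N + 1) → Qb) (n : ℕ) :
    (pmap F)^[k * n] (fun i => cO a i + ((p : ℕ) : Qb) ^ 2 * x i) =
      fun i => cO a i + ((p : ℕ) : Qb) ^ 2 * (pmap (flQ p H))^[n] x i := by
  induction n with
  | zero => rfl
  | succ n ih =>
    rw [Nat.mul_succ, Nat.add_comm (k * n) k, Function.iterate_add_apply, ih, conj_pt h,
      Function.iterate_succ_apply']

theorem slf_pp (h : Flo P b F d p P₀ k a H) (hs : Slf (Ideal.span {P}) F) :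
    Slf (Ideal.span {pp P a}) (flQ p H) := by
  have hsk := hs.it k
  have key : ∀ c : Po (N + 1) Qb, pp P a ∣ aeval (flQ p H) c ↔ pp P a ∣ c := by
    intro c
    have h1 : c = aeval (lt (cO a) (((p : ℕ) : Qb) ^ 2))
        (aeval (li (cO a) (((p : ℕ) : Qb) ^ 2)) c) := (aeval_lt_li (cO a) (p_ne p) c).symm
    rw [h1, conj_aeval h, pp_dvd, pp_dvd, ← Ideal.mem_span_singleton,
      ← Ideal.mem_span_singleton]
    exact hsk.iff _
  constructor
  · intro c hc
    rw [Ideal.mem_span_singleton] at hc ⊢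
    exact (key c).mpr hc
  · intro c hc
    rw [Ideal.mem_span_singleton] at hc ⊢
    exact (key c).mp hc

theorem cvi_pp (h : Flo P b F d p P₀ k a H) {e : ℕ} (hc : Cvi (Ideal.span {P}) (it F k) e) :
    Cvi (Ideal.span {pp P a}) (flQ p H) e := by
  classical
  obtain ⟨c, hcP, hc⟩ := hc
  refine ⟨aeval (lt (cO a) (((p : ℕ) : Qb) ^ 2)) c, ?_, fun y hy hyc => ?_⟩
  · rw [Ideal.mem_span_singleton, pp_dvd, ← Ideal.mem_span_singleton]
    exact hcP
  rw [zer_span, eval_pp] at hy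
  rw [eval_lt] at hyc
  obtain ⟨S, hS, hS'⟩ := hc _ (zer_span.mpr hy) hyc
  set g : (Fin (N + 1) → Qb) → (Fin (N + 1) → Qb) :=
    fun x i => (((p : ℕ) : Qb) ^ 2)⁻¹ * (x i - cO a i) with hg
  have hgl : ∀ x, (fun i => cO a i + ((p : ℕ) : Qb) ^ 2 * g x i) = x := by
    intro x
    funext i
    rw [hg]
    change cO a i + ((p : ℕ) : Qb) ^ 2 * ((((p : ℕ) : Qb) ^ 2)⁻¹ * (x i - cO a i)) = x i
    rw [← mul_assoc, mul_inv_cancel₀ (p_ne p)]
    ring
  have hinj : Function.Injective g := by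
    intro x y hxy
    rw [← hgl x, ← hgl y, hxy]
  refine ⟨S.image g, by rw [Finset.card_image_of_injective _ hinj, hS], fun x hx => ?_⟩
  obtain ⟨w, hw, rfl⟩ := Finset.mem_image.mp hx
  obtain ⟨h1, h2⟩ := hS' w hw
  constructor
  · rw [zer_span, eval_pp, hgl]
    exact zer_span.mp h1
  · have h3 := conj_pt h (g w)
    rw [hgl, ← pmap_it, h2] at h3
    funext i
    have h4 := congrFun h3 i
    exact (mul_left_cancel₀ (p_ne p) (add_left_cancel h4)).symm

theorem deg_flQ_pos (H : Tup (N + 1) (O p)) : 1 ≤ deg (flQ p H) := by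
  by_contra hlt
  have h0 : (flQ p H 0).totalDegree = 0 := by
    have := totalDegree_le_deg (flQ p H) 0
    omega
  rw [totalDegree_eq_zero_iff_eq_C] at h0
  have h1 := congrArg (coeff (Finsupp.single 0 1)) h0
  rw [coeff_C, if_neg (by
    intro h
    have h2 := congrArg (fun f => f 0) h
    simp at h2)] at h1
  have h2 : coeff (Finsupp.single 0 1) (flQ p H 0) =
      1 + ((p : ℕ) : Qb) * ((coeff (Finsupp.single 0 1) (H 0) : O p) : Qb) := by
    rw [flQ, fl, map_add, map_mul, map_X, map_C, coeff_add, coeff_C_mul, coeff_map, coe_p]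
    rw [show (X 0 : Po (N + 1) Qb) = monomial (Finsupp.single 0 1) 1 from rfl, coeff_monomial,
      if_pos rfl]
    rfl
  rw [h2] at h1
  have h3 : v p (((p : ℕ) : Qb) * ((coeff (Finsupp.single 0 1) (H 0) : O p) : Qb)) < 1 := by
    rw [Pool.Agent.H12.ZD.v_mul]
    calc _ ≤ v p ((p : ℕ) : Qb) * 1 := mul_le_mul_of_nonneg_left
            (coeff (Finsupp.single 0 1) (H 0) : O p).2 (Pool.Agent.H12.ZD.v_nonneg p _)
      _ < 1 := by
          rw [mul_one]
          exact Pool.Agent.H12.ZD.v_self_lt p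
  have h4 : ((p : ℕ) : Qb) * ((coeff (Finsupp.single 0 1) (H 0) : O p) : Qb) = -1 := by
    linear_combination h1
  rw [h4, Pool.Agent.H12.ZD.v_neg, Pool.Agent.H12.ZD.v_one] at h3
  exact lt_irrefl _ h3

end

theorem core (hALX : T_ALX) (hPEG : T_PEG) (hHIG : T_HIG) (hPRX : T_PRX) (hHNX : T_HNX)
    (hNRX : T_NRX) {N r d E : ℕ} {P b : Po (N + 1) Qb} {F : Tup (N + 1) Qb} {p : Nat.Primes}
    {P₀ : Po (N + 1) (O p)} {k : ℕ} {a : Fin (N + 1) → O p} {H : Tup (N + 1) (O p)}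
    (hP : Hyp P r) (h : Flo P b F d p P₀ k a H) (hs : Slf (Ideal.span {P}) F)
    (hc : Cvi (Ideal.span {P}) (it F k) E) (hdeg : (d ^ k) ^ (N - 1) < E) (hN : 1 ≤ N) :
    ∃ z : Fin (N + 1) → O p, eval (cO z) (pp P a) = 0 ∧
      ∀ c ∈ van (flQ p H) (cO z), pp P a ∣ c := by
  classical
  have hprime := isPrime_span (pp_irr hP.irr a)
  have hsG := slf_pp h hs
  obtain ⟨hind, halg⟩ := hALX N Qb (pp P a) (flQ p H) (pp_irr hP.irr a) (pp_mon hP.mon a) hsG
  have hind' : ∀ q : Po N Qb, aeval (fun j : Fin N => flQ p H j.succ) q ∈ Ideal.span {pp P a} →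
      q = 0 := fun q hq => hind q (Ideal.mem_span_singleton.mp hq)
  have halg' : ∀ i, ∃ Q : Polynomial (Po N Qb), Q ≠ 0 ∧
      evg (fun j : Fin N => flQ p H j.succ) (X i) Q ∈ Ideal.span {pp P a} := by
    intro i
    obtain ⟨Q, hQ, hQ'⟩ := halg i
    exact ⟨Q, hQ, Ideal.mem_span_singleton.mpr hQ'⟩
  obtain ⟨θ, Φ, Δ, R, hmon, -, hroot, hΔ, hcoord⟩ := hPEG (N + 1) N Qb (Ideal.span {pp P a})
    (fun j => flQ p H j.succ) hind' halg'
  obtain ⟨cG, hcG, hcG'⟩ := cvi_pp h hc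
  obtain ⟨c', A, hc'0, hc'⟩ := hNRX N Qb (pp P a) cG (pp_irr hP.irr a) (pp_mon hP.mon a)
    (fun hd => hcG (Ideal.mem_span_singleton.mpr hd))
  obtain ⟨w, hw, hgal⟩ := hHIG (N + 1) N (Ideal.span {pp P a}) (fun j => flQ p H j.succ)
    (Finset.univ.image (flQ p H)) (c' * Δ) hind' halg' (mul_ne_zero hc'0 hΔ)
  rw [map_mul] at hw
  obtain ⟨u, hu⟩ := hHNX N p P₀ a h.mon h.zero h.der (fun j => ((w j : ℤ) : O p))
  set z : Fin (N + 1) → O p := Fin.cons u (fun j => ((w j : ℤ) : O p)) with hz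
  have hzs : ∀ j : Fin N, cO z j.succ = (w j : Qb) := by
    intro j
    change ((z j.succ : O p) : Qb) = _
    rw [hz, Fin.cons_succ]
    exact map_intCast (O p).subtype (w j)
  have hzs' : (fun j : Fin N => cO z j.succ) = cZ w := funext hzs
  have hzP : eval (cO z) (pp P a) = 0 := by
    rw [eval_pp, ← h.map]
    have h1 : (fun i => cO a i + ((p : ℕ) : Qb) ^ 2 * cO z i) =
        cO (fun i => a i + ((p : ℕ) : O p) ^ 2 * z i) := by
      funext i
      change _ = (O p).subtype (a i + ((p : ℕ) : O p) ^ 2 * z i)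
      rw [map_add, map_mul, map_pow, coe_p]
      rfl
    rw [h1, eval_cO, hu]
    rfl
  have hzer : Zer (Ideal.span {pp P a}) (cO z) := zer_span.mpr hzP
  have hle : ∀ c ∈ Ideal.span {pp P a}, c ∈ van (flQ p H) (cO z) := by
    intro c hc n
    exact zer_iterate hsG.inv hzer n c hc
  obtain ⟨x, hx, hxvan⟩ := hPRX (N + 1) N p H Fin.succ z θ Φ Δ R h.hp hmon (hle _ hroot)
    (fun i => hle _ (hcoord i)) (by rw [hzs']; exact right_ne_zero_of_mul hw)
  have hcGz : eval (cO z) cG ≠ 0 := by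
    intro h0
    apply left_ne_zero_of_mul hw
    obtain ⟨B, hB⟩ := hc'
    have h1 := congrArg (eval (cO z)) hB
    rw [map_sub, map_mul, map_mul, h0, hzP, zero_mul, zero_mul, sub_zero, up, eval_rename] at h1
    rw [← hzs']
    exact h1
  obtain ⟨S, hS, hS'⟩ := hcG' (cO z) hzer hcGz
  have hxG : pmap (flQ p H) (cO x) = cO z := by
    rw [← hx]
    exact pmap_cO (fl p H) x
  have hxz : Zer (Ideal.span {pp P a}) (cO x) :=
    zer_span.mpr (hxvan _ (hle _ (Ideal.mem_span_singleton_self _)))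
  have hgal' : ∀ P' ∈ S, ∃ σ : Qb ≃+* Qb, (∀ i, MvPolynomial.map (σ : Qb →+* Qb) (flQ p H i) =
      flQ p H i) ∧ (∀ i, σ (cO z i) = cO z i) ∧ ∀ i, σ (cO x i) = P' i := by
    intro P' hP'
    obtain ⟨h1, h2⟩ := hS' P' hP'
    obtain ⟨σ, hσ1, hσ2⟩ := hgal (cO x) P' hxz h1
      (fun j => by rw [← hzs j]; exact congrFun hxG j.succ)
      (fun j => by rw [← hzs j]; exact congrFun h2 j.succ)
    have hσG : ∀ i, MvPolynomial.map (σ : Qb →+* Qb) (flQ p H i) = flQ p H i :=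
      fun i => hσ1 _ (Finset.mem_image_of_mem _ (Finset.mem_univ i))
    refine ⟨σ, hσG, fun i => ?_, hσ2⟩
    have h3 : cO z i = eval (cO x) (flQ p H i) := (congrFun hxG i).symm
    have h4 : P' = fun i => (σ : Qb →+* Qb) (cO x i) := funext fun i => (hσ2 i).symm
    have h5 : σ (eval (cO x) (flQ p H i)) = eval P' (flQ p H i) := by
      have h6 := Pool.Agent.H8.HZ.eval_map_apply (σ : Qb →+* Qb) (flQ p H i) (cO x)
      rw [hσG, ← h4] at h6
      exact h6.symm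
    rw [h3, h5, ← h3]
    exact congrFun h2 i
  subst hS
  obtain ⟨θ', hθ'⟩ := All.str (N + 1) Qb (flQ p H) (cO z) (cO x) S hxG
    (fun n => by rw [flQ_iterate]; exact Pool.Agent.H8.HIT.jac_fl_ne p H _)
    (Pool.Agent.H8.HIT.jac_fl_ne p H x) hxvan
    (fun h' q hhq hh => All.inc (N + 1) p H z h' q h.hp hhq hh) hgal'
  refine ⟨z, hzP, fun c hc => ?_⟩
  by_contra hnd
  have hrel : IsRelPrime (pp P a) c := (pp_irr hP.irr a).isRelPrime_iff_not_dvd.mpr hnd
  have hc0 : c ≠ 0 := by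
    rintro rfl
    exact hnd (dvd_zero _)
  obtain ⟨B, hB⟩ := All.hf2 (N + 1) Qb (van (flQ p H) (cO z)) (pp P a) c
    (hle _ (Ideal.mem_span_singleton_self _)) hc (pp_irr hP.irr a).ne_zero hc0 hrel
  have hlt : deg (flQ p H) ^ (N - 1) < S.card :=
    lt_of_le_of_lt (Nat.pow_le_pow_left h.deg _) hdeg
  exact Pool.Agent.H8.HIT.pf_GRW (N + 1) Qb (van (flQ p H) (cO z)) (flQ p H) θ' S.card B (N - 1)
    (one_notMem_van _ _) (deg_flQ_pos H) hlt (fun c hc => van_aeval hc) hθ' (by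
      have h1 : N + 1 - 2 = N - 1 := by omega
      rw [h1] at hB
      exact hB)

theorem pf_X (hGDX : T_GDX) (hCHH : T_CHH) (hJCX : T_JCX) (hCNI : T_CNI) (hALX : T_ALX)
    (hPEG : T_PEG) (hHIG : T_HIG) (hPRX : T_PRX) (hHNX : T_HNX) (hNRX : T_NRX) (hNSI : T_NSI) :
    T_X := by
  intro N r d e P b F hN hP hrd hF hinv hcov hdeg hb hPb
  have hprime := isPrime_span hP.irr
  have he : 1 ≤ e := by omega
  have hs : Slf (Ideal.span {P}) F := slf_of_cvi hNSI he (inv_span hinv) hcov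
  obtain ⟨F', W, hF', hcong, hW, hPW⟩ := hCHH N r d Qb P F hN hP hrd hF hs
  have hcong' : ∀ i, F' i - F i ∈ Ideal.span {P} := fun i =>
    Ideal.mem_span_singleton.mpr (hcong i)
  have hs' : Slf (Ideal.span {P}) F' := hs.congr hcong'
  have hcov' : Cvi (Ideal.span {P}) F' e := hcov.congr hcong'
  obtain ⟨p, P₀, k, a, H, h⟩ := exists_flo hGDX hJCX W hN hP hF' hs' hW hPW hb hPb
  have hk := h.hk
  obtain ⟨z, hz, hvan⟩ := core hALX hPEG hHIG hPRX hHNX hNRX hP h hs'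
    (hCNI (N + 1) Qb (Ideal.span {P}) F' e k hs' hcov') (by
      calc (d ^ k) ^ (N - 1) = (d ^ (N - 1)) ^ k := by rw [← pow_mul, ← pow_mul, Nat.mul_comm]
        _ < e ^ k := Nat.pow_lt_pow_left hdeg (by omega)) hN
  have hz' := (eval_pp P a (cO z)).mp hz
  have horb : ∀ n, (pmap F)^[n] (fun i => cO a i + ((p : ℕ) : Qb) ^ 2 * cO z i) =
      (pmap F')^[n] (fun i => cO a i + ((p : ℕ) : Qb) ^ 2 * cO z i) := fun n =>
    (iterate_congr hs.inv hcong' (zer_span.mpr hz') n).symm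
  refine ⟨fun i => cO a i + ((p : ℕ) : Qb) ^ 2 * cO z i, hz', fun n => ?_, fun c hc => ?_⟩
  · rw [horb]
    exact h.avo n z
  · rw [← pp_dvd P a]
    apply hvan
    intro n
    rw [eval_lt, ← conj_orb h, ← horb]
    exact hc _

end Pool.Agent.H18.HX
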