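import Pool.Agent.H18.HX.CoreX
import Pool.Agent.H18.HX.Var2
import Pool.Agent.H13.HX.XK
import Pool.Agent.H18.HIT.All
import Pool.Agent.H37.HX.ALX
import Pool.Agent.H8.HX.BRL
import Pool.Agent.H35.HX.CDV
import Pool.Agent.H33.HX.CHH
import Pool.Agent.H78.HX.CNI
import Pool.Agent.H58.HX.CNS
import Pool.Agent.H33.HX.CVD
import Pool.Agent.H77.HX.DNX
import Pool.Agent.H63.HX.ELI
import Pool.Agent.H30.HX.EPA
import Pool.Agent.H52.HX.EPB
import Pool.Agent.H85.HX.FRY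
import Pool.Agent.H30.HX.GEN
import Pool.Agent.H91.HX.HLO
import Pool.Agent.H33.HX.HUP
import Pool.Agent.H30.HX.IND
import Pool.Agent.H40.HX.INR
import Pool.Agent.H37.HX.JCX
import Pool.Agent.H35.HX.KEA
import Pool.Agent.H30.HX.KEB
import Pool.Agent.H96.HX.LFT
import Pool.Agent.H49.HX.MPW
import Pool.Agent.H39.HX.NDS
import Pool.Agent.H68.HX.NFB
import Pool.Agent.H11.HX.NFC
import Pool.Agent.H8.HX.NIX
import Pool.Agent.H70.HX.NRX
import Pool.Agent.H91.HX.NSI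
import Pool.Agent.H74.HX.PEI
import Pool.Agent.H52.HX.POL
import Pool.Agent.H54.HX.PTS
import Pool.Agent.H39.HX.PVI
import Pool.Agent.H86.HX.PVR
import Pool.Agent.H78.HX.RED
import Pool.Agent.H77.HX.RLX
import Pool.Agent.H64.HX.TRV
import Pool.Agent.H58.HX.WPO
import Pool.Agent.H58.HX.WRO
import Pool.Agent.H8.HX.GDX
import Pool.Agent.H58.HX.HNX
import Pool.Agent.H58.HX.LFX
import Pool.Agent.H99.HX.NFA
import Pool.Agent.H99.HX.DGX
import Pool.Agent.H68.HX.CDX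
import Pool.Agent.H72.HX.CDC
import Pool.Agent.H4.HX.IRS

/-!
# All the rows together
-/

open MvPolynomial
open Pool.Agent.H12.ZD (pmap v O Res DenseOrbit NoInv)
open Pool.Agent.H18.HIT Pool.Agent.H13.HX

namespace Pool.Agent.H18.HX.All

theorem wpo : T_WPO := Pool.Agent.H58.HX.pf_WPO Pool.Agent.H58.HX.pf_WRO Pool.Agent.H58.HX.pf_CNS
theorem kea : T_KEA := Pool.Agent.H35.HX.pf_KEA Pool.Agent.H8.HX.pf_BRL
theorem fry : T_FRY := Pool.Agent.H85.HX.pf_FRY kea Pool.Agent.H30.HX.pf_KEB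
  Pool.Agent.H30.HX.pf_EPA Pool.Agent.H8.HX.pf_NIX Pool.Agent.H52.HX.pf_EPB
theorem gdx : T_GDX := Pool.Agent.H8.HX.pf_GDX wpo Pool.Agent.H30.HX.pf_IND
  Pool.Agent.H49.HX.pf_MPW fry Pool.Agent.H78.HX.pf_RED Pool.Agent.H58.HX.pf_LFX
theorem chh : T_CHH := Pool.Agent.H33.HX.pf_CHH
theorem jcx : T_JCX := Pool.Agent.H37.HX.pf_JCX
theorem eli : T_ELI := Pool.Agent.H63.HX.pf_ELI
theorem cni : T_CNI := Pool.Agent.H78.HX.pf_CNI eli
theorem alx : T_ALX := Pool.Agent.H37.HX.pf_ALX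
theorem hnx : T_HNX := Pool.Agent.H58.HX.pf_HNX
theorem nrx : T_NRX := Pool.Agent.H70.HX.pf_NRX
theorem nsi : T_NSI := Pool.Agent.H91.HX.pf_NSI
theorem nfa : T_NFA := Pool.Agent.H99.HX.pf_NFA
theorem nfb : T_NFB := Pool.Agent.H68.HX.pf_NFB
theorem nfc : T_NFC := Pool.Agent.H11.HX.pf_NFC
theorem lft : T_LFT := Pool.Agent.H96.HX.pf_LFT
theorem pts : T_PTS := Pool.Agent.H54.HX.pf_PTS
theorem pvi : T_PVI := Pool.Agent.H39.HX.PVI.pf_PVI eli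
theorem pvr : T_PVR := Pool.Agent.H86.HX.pf_PVR eli
theorem trv : T_TRV := Pool.Agent.H64.HX.pf_TRV pts
theorem gen : T_GEN := Pool.Agent.H30.HX.pf_GEN
theorem hlo : T_HLO := Pool.Agent.H91.HX.pf_HLO Pool.Agent.H18.HIT.All.rtd
theorem hup : T_HUP := Pool.Agent.H33.HX.pf_HUP Pool.Agent.H18.HIT.All.rtd
  Pool.Agent.H18.HIT.All.hf1
theorem inr : T_INR := Pool.Agent.H40.HX.pf_INR gen hlo hup
theorem pei : T_PEI := Pool.Agent.H74.HX.pf_PEI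
theorem cvd : T_CVD := Pool.Agent.H33.HX.pf_CVD
theorem dgx : T_DGX := Pool.Agent.H99.HX.pf_DGX gen hlo
theorem pol : T_POL := Pool.Agent.H52.HX.pf_POL
theorem cdx : T_CDX := Pool.Agent.H68.HX.pf_CDX
theorem cdc : T_CDC := Pool.Agent.H72.HX.pf_CDC
theorem cdv : T_CDV := Pool.Agent.H35.HX.pf_CDV
theorem irs : T_IRS := Pool.Agent.H4.HX.pf_IRS
theorem nds : T_NDS := Pool.Agent.H39.HX.NDS.pf_NDS
theorem rlx : T_RLX := Pool.Agent.H77.HX.pf_RLX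
theorem dnx : T_DNX := Pool.Agent.H77.HX.pf_DNX

theorem x_of (hPEG : T_PEG) (hHIG : T_HIG) (hPRX : T_PRX) : T_X :=
  pf_X gdx chh jcx cni alx hPEG hHIG hPRX hnx nrx nsi

theorem xk_of (hPEG : T_PEG) (hHIG : T_HIG) (hPRX : T_PRX) : Pool.Agent.H18.HX.T_XK :=
  fun N r d e k _ _ _ => Pool.Agent.H13.HX.pf_XK pei (x_of hPEG hHIG hPRX) cdx cdc cdv irs nds rlx
    dnx k N r d e

end Pool.Agent.H18.HX.All
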