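import Pool.Agent.H18.HX.Disc
import Pool.Agent.H18.HIT.All

/-!
# Dense orbits on arbitrary varieties: the hypersurface theorem
-/

open MvPolynomial
open Pool.Agent.H12.ZD (pmap v O Res DenseOrbit NoInv)
open Pool.Agent.H18.HIT

namespace Pool.Agent.H18.HX

/-- the flow on the hypersurface: all that is needed from characteristic `p` -/
structure Flo {N : ℕ} (P b : Po (N + 1) Qb) (F : Tup (N + 1) Qb) (d : ℕ) (p : Nat.Primes)
    (P₀ : Po (N + 1) (O p)) (k : ℕ) (a : Fin (N + 1) → O p) (H : Tup (N + 1) (O p)) : Prop where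
  hp : 3 ≤ (p : ℕ)
  hk : 1 ≤ k
  mon : Mny P₀
  map : MvPolynomial.map (O p).subtype P₀ = P
  zero : eval a P₀ = 0
  der : v p ((eval a (pderiv 0 P₀) : O p) : Qb) = 1
  conj : comp (it F k) (lt (cO a) (((p : ℕ) : Qb) ^ 2)) =
    comp (lt (cO a) (((p : ℕ) : Qb) ^ 2)) (flQ p H)
  deg : deg (flQ p H) ≤ d ^ k
  avo : ∀ (n : ℕ) (z : Fin (N + 1) → O p),
    eval ((pmap F)^[n] (fun i => cO a i + ((p : ℕ) : Qb) ^ 2 * cO z i)) b ≠ 0

theorem coe_p (p : Nat.Primes) : (O p).subtype ((p : ℕ) : O p) = ((p : ℕ) : Qb) :=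
  Pool.Agent.H8.HZ.coe_natCast_O p p

theorem p_ne (p : Nat.Primes) : ((p : ℕ) : Qb) ^ 2 ≠ 0 :=
  pow_ne_zero 2 (Nat.cast_ne_zero.mpr p.2.ne_zero)

theorem fse_pderiv {N : ℕ} {k : Type} [CommRing k] (q : Po (N + 1) k) :
    finSuccEquiv k N (pderiv 0 q) = Polynomial.derivative (finSuccEquiv k N q) := by
  induction q using MvPolynomial.induction_on with
  | C c =>
    rw [pderiv_C, map_zero, finSuccEquiv_apply, eval₂Hom_C, RingHom.comp_apply,
      Polynomial.derivative_C]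
  | add p q hp hq => rw [map_add, map_add, hp, hq, map_add, Polynomial.derivative_add]
  | mul_X p i hp =>
    rw [pderiv_mul, map_add, map_mul, map_mul, hp, map_mul, Polynomial.derivative_mul]
    congr 2
    refine Fin.cases ?_ (fun j => ?_) i
    · rw [pderiv_X_self, map_one, finSuccEquiv_X_zero, Polynomial.derivative_X]
    · rw [pderiv_X_of_ne (Fin.succ_ne_zero j), map_zero, finSuccEquiv_X_succ,
        Polynomial.derivative_C]

theorem exists_flo (hGDX : T_GDX) (hJCX : T_JCX) {N r d : ℕ} {P b : Po (N + 1) Qb}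
    {F : Tup (N + 1) Qb} (W : Po (N + 1) Qb) (hN : 1 ≤ N) (hP : Hyp P r)
    (hF : ∀ i, (F i).IsHomogeneous d) (hs : Slf (Ideal.span {P}) F) (hW : aeval F P = P * W)
    (hPW : ¬ P ∣ W) (hb : ∃ m, b.IsHomogeneous m) (hPb : ¬ P ∣ b) :
    ∃ (p : Nat.Primes) (P₀ : Po (N + 1) (O p)) (k : ℕ) (a : Fin (N + 1) → O p)
      (H : Tup (N + 1) (O p)), Flo P b F d p P₀ k a H := by
  classical
  have hjac := hJCX N Qb P W F hP.irr hP.mon hs hW hPW
  have hder : ¬ P ∣ pderiv 0 P := by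
    have hq : (finSuccEquiv Qb N (pderiv 0 P)) =
        Polynomial.derivative (finSuccEquiv Qb N P) := fse_pderiv P
    intro hdvd
    have h1 : finSuccEquiv Qb N P ∣ Polynomial.derivative (finSuccEquiv Qb N P) := by
      rw [← hq]
      exact map_dvd (finSuccEquiv Qb N) hdvd
    have hmon : (finSuccEquiv Qb N P).Monic := hP.mon
    have hpos : 0 < (finSuccEquiv Qb N P).natDegree := by
      rw [Nat.pos_iff_ne_zero]
      intro h0
      have h2 := hmon.natDegree_eq_zero.mp h0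
      apply hP.irr.not_isUnit
      have h3 : P = 1 := by
        apply (finSuccEquiv Qb N).injective
        rw [h2, map_one]
      rw [h3]
      exact isUnit_one
    have h2 : Polynomial.derivative (finSuccEquiv Qb N P) ≠ 0 := by
      intro h3
      have h4 := Polynomial.derivative_eq_zero.mp h3
      omega
    have h3 := Polynomial.natDegree_le_of_dvd h1 h2
    have h4 := Polynomial.natDegree_derivative_lt (p := finSuccEquiv Qb N P) (by omega)
    omega
  obtain ⟨M, hM⟩ := Pool.Agent.H12.ZD.exists_bound_lift b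
  obtain ⟨p, P₀, F₀, a, hp, hmon, hP₀, hF₀, hz, hav⟩ := hGDX N r d (max M 3) P F
    {b, jac F, pderiv 0 P} hN hP hF hs (by
      intro c hc
      simp only [Finset.mem_insert, Finset.mem_singleton] at hc
      rcases hc with rfl | rfl | rfl
      · exact ⟨hb, hPb⟩
      · exact ⟨jac_homogeneous F hF, hjac⟩
      · exact ⟨⟨_, hP.hom.pderiv⟩, hder⟩)
  obtain ⟨b₀, hb₀, -⟩ := hM p (lt_of_le_of_lt (le_max_left _ _) hp)
  have hp3 : 3 < (p : ℕ) := lt_of_le_of_lt (le_max_right _ _) hp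
  have hFm : (fun i => map (O p).subtype (F₀ i)) = F := funext hF₀
  have hv : ∀ (q₀ : Po (N + 1) (O p)) (x : Fin (N + 1) → O p),
      eval (cO x) (map (O p).subtype q₀) = ((eval x q₀ : O p) : Qb) := fun q₀ x => eval_cO q₀ x
  have hjm : map (O p).subtype (jac F₀) = jac F := by
    have h1 := Pool.Agent.H8.HZ.jac_map (O p).subtype F₀
    rw [hFm] at h1
    exact h1.symm
  obtain ⟨k, m, H, hk, hH⟩ := Pool.Agent.H8.HIT.pf_FLW (N + 1) p F₀ a (fun n => by
    rw [← hv, hjm]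
    exact hav (jac F) (by simp) n)
  have hFn : ∀ (n : ℕ) (x : Fin (N + 1) → O p), (pmap F)^[n] (cO x) = cO ((pmap F₀)^[n] x) := by
    intro n x
    rw [← hFm]
    exact iterate_cO F₀ x n
  have hPz : ∀ n, eval ((pmap F₀)^[n] a) P₀ = 0 := by
    intro n
    apply (O p).subtype_injective
    rw [map_zero]
    change ((eval ((pmap F₀)^[n] a) P₀ : O p) : Qb) = 0
    rw [← hv, hP₀, ← hFn]
    have h1 : Zer (Ideal.span {P}) (cO a) := by
      rw [zer_span, ← hP₀, hv, hz]
      rfl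
    exact zer_span.mp (zer_iterate hs.inv h1 n)
  refine ⟨p, P₀, k, (pmap F₀)^[m] a, H, by omega, hk, hmon, hP₀, hPz m, ?_, ?_, ?_, ?_⟩
  · rw [← hv]
    have h1 : map (O p).subtype (pderiv 0 P₀) = pderiv 0 P := by
      rw [← hP₀, pderiv_map]
    rw [h1]
    exact hav (pderiv 0 P) (by simp) m
  · have hitm : (fun i => map (O p).subtype (it F₀ k i)) = it F k := by
      rw [← hFm, ← Pool.Agent.H8.HIT.itr_eq, ← Pool.Agent.H8.HIT.itr_eq,
        Pool.Agent.H8.HZ.itr_map]
    funext i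
    have h1 := Pool.Agent.H8.HZ.flow_map (O p).subtype (it F₀ k) ((pmap F₀)^[m] a)
      ((p : ℕ) : O p) H hH i
    rw [coe_p, congrFun hitm i] at h1
    change aeval (lt (cO ((pmap F₀)^[m] a)) (((p : ℕ) : Qb) ^ 2)) (it F k i) =
      aeval (flQ p H) (lt (cO ((pmap F₀)^[m] a)) (((p : ℕ) : Qb) ^ 2) i)
    have h2 : aeval (flQ p H) (lt (cO ((pmap F₀)^[m] a)) (((p : ℕ) : Qb) ^ 2) i) =
        C (cO ((pmap F₀)^[m] a) i) + C (((p : ℕ) : Qb) ^ 2) * flQ p H i := by
      rw [lt, map_add, map_mul, aeval_X, aeval_C, aeval_C, algebraMap_eq]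
    rw [h2]
    exact h1
  · apply deg_le
    intro i
    have hp0 : (O p).subtype ((p : ℕ) : O p) ≠ 0 := by
      rw [coe_p]
      exact_mod_cast p.2.ne_zero
    have h1 := Pool.Agent.H8.HZ.flow_degree (O p).subtype (it F₀ k) ((pmap F₀)^[m] a)
      ((p : ℕ) : O p) hp0 H hH i
    have hitm : (fun i => map (O p).subtype (it F₀ k i)) = it F k := by
      rw [← hFm, ← Pool.Agent.H8.HIT.itr_eq, ← Pool.Agent.H8.HIT.itr_eq,
        Pool.Agent.H8.HZ.itr_map]
    rw [congrFun hitm i] at h1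
    refine h1.trans ((totalDegree_le_deg _ i).trans ((deg_it_le F hk).trans ?_))
    exact Nat.pow_le_pow_left (deg_le fun j => (hF j).totalDegree_le) k
  · intro n z h0
    have h1 : v p ((eval ((pmap F₀)^[n] ((pmap F₀)^[m] a)) b₀ : O p) : Qb) = 1 := by
      rw [← Function.iterate_add_apply, ← hv, hb₀]
      exact hav b (by simp) (n + m)
    apply Pool.Agent.H8.HZ.disc_avoid p F₀ b₀ ((pmap F₀)^[m] a) n h1 z
    apply (O p).subtype_injective
    rw [map_zero]
    change ((eval ((pmap F₀)^[n] fun i => (pmap F₀)^[m] a i + ((p : ℕ) : O p) ^ 2 * z i) b₀ :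
      O p) : Qb) = 0
    rw [← hv, hb₀, ← hFn]
    have h2 : cO (fun i => (pmap F₀)^[m] a i + ((p : ℕ) : O p) ^ 2 * z i) =
        fun i => cO ((pmap F₀)^[m] a) i + ((p : ℕ) : Qb) ^ 2 * cO z i := by
      funext i
      have h3 := coe_p p
      change (O p).subtype ((pmap F₀)^[m] a i + ((p : ℕ) : O p) ^ 2 * z i) = _
      rw [map_add, map_mul, map_pow, h3]
      rfl
    rw [h2]
    exact h0

end Pool.Agent.H18.HX
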