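import Pool.Agent.H18.HIT.Targets

/-!
# Dense orbits on arbitrary varieties: definitions

`P` is a polynomial in `N + 1` variables which is monic in the variable `X 0` and irreducible; the
other variables are `X i.succ`. The hypersurface `P = 0` is (the cone over) a model of the variety.
-/

open MvPolynomial
open Pool.Agent.H12.ZD (pmap v O Res DenseOrbit NoInv)
open Pool.Agent.H18.HIT

namespace Pool.Agent.H18.HX

section ring

variable {L N : ℕ} {k : Type} [CommRing k]

/-- polynomials in the variables `X i.succ` -/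
noncomputable def up (q : Po N k) : Po (N + 1) k := rename Fin.succ q

/-- `P` is monic in `X 0` -/
def Mny (P : Po (N + 1) k) : Prop := (finSuccEquiv k N P).Monic

/-- the value `Φ(g, θ)` of a polynomial `Φ` in `k[y][T]` -/
noncomputable def evg (g : Fin N → Po L k) (θ : Po L k) (Φ : Polynomial (Po N k)) : Po L k :=
  Φ.eval₂ (aeval g : Po N k →ₐ[k] Po L k).toRingHom θ

/-- `f` maps the zeros of `I` dominantly to themselves -/
structure Slf (I : Ideal (Po L k)) (f : Tup L k) : Prop where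
  inv : ∀ c ∈ I, aeval f c ∈ I
  inj : ∀ c, aeval f c ∈ I → c ∈ I

/-- `x` is a zero of the ideal `I` -/
def Zer (I : Ideal (Po L k)) (x : Fin L → k) : Prop := ∀ q ∈ I, eval x q = 0

/-- the zeros of `I` outside some closed subset have at least `e` preimages -/
def Cvi (I : Ideal (Po L k)) (f : Tup L k) (e : ℕ) : Prop := ∃ c, c ∉ I ∧
  ∀ y, Zer I y → eval y c ≠ 0 → ∃ S : Finset (Fin L → k), S.card = e ∧
    ∀ x ∈ S, Zer I x ∧ pmap f x = y

/-- the same for the projective variety defined by `I` -/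
def Pvi (I : Ideal (Po L k)) (f : Tup L k) (e : ℕ) : Prop := ∃ c, c ∉ I ∧
  ∀ y, Zer I y → eval y c ≠ 0 → ∃ S : Finset (Fin L → k), S.card = e ∧
    (∀ x ∈ S, Zer I x ∧ pmap f x = y) ∧
    ∀ x ∈ S, ∀ x' ∈ S, ∀ t : k, (∀ i, x' i = t * x i) → x' = x

/-- the derivations which kill `P` -/
noncomputable def dd (P : Po (N + 1) k) (i : Fin N) :
    Derivation k (Po (N + 1) k) (Po (N + 1) k) :=
  pderiv 0 P • pderiv i.succ - pderiv i.succ P • pderiv 0

/-- compositions of the derivations `dd` -/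
noncomputable def dw (P : Po (N + 1) k) : List (Fin N) → Po (N + 1) k → Po (N + 1) k
  | [], h => h
  | i :: w, h => dd P i (dw P w h)

/-- the coefficient of `T ^ j` in `(P(T, x) - P(y, x)) / (T - y)`, where `y = X 0` -/
noncomputable def ec (P : Po (N + 1) k) (j : ℕ) : Po (N + 1) k :=
  (finSuccEquiv k N).symm ((Polynomial.divX)^[j + 1] (finSuccEquiv k N P))

/-- `(P(T, x) - P(y, x)) / (T - y)` at `y = F 0, x = F, T = X 0 ^ Q` -/
noncomputable def ep (P : Po (N + 1) k) (F : Tup (N + 1) k) (r Q : ℕ) : Po (N + 1) k :=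
  ∑ j ∈ Finset.range r, aeval F (ec P j) * X 0 ^ (Q * j)

/-- multi-indices of degree less than `r` -/
abbrev Ix (N r : ℕ) : Type := {l : Fin N → Fin r // ∑ i, (l i : ℕ) < r}

/-- the degree of a multi-index -/
def sz {r : ℕ} (l : Ix N r) : ℕ := ∑ i, (l.1 i : ℕ)

/-- the elements whose Wronskian is needed -/
noncomputable def gl (P : Po (N + 1) k) (F : Tup (N + 1) k) (c : Po (N + 1) k) {r : ℕ}
    (l : Ix N r) : Po (N + 1) k :=
  c * aeval F (ec P (sz l) * ∏ i, X i.succ ^ (l.1 i : ℕ))

/-- the Wronskian -/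
noncomputable def wr (P : Po (N + 1) k) (F : Tup (N + 1) k) (c : Po (N + 1) k) {r : ℕ}
    (D : Ix N r → List (Fin N)) : Po (N + 1) k :=
  Matrix.det (Matrix.of fun a b => dw P (D a) (gl P F c b))

/-- the factor `(F^*)^(N+1) (F^*(P') b)` -/
noncomputable def cc (P : Po (N + 1) k) (F : Tup (N + 1) k) (b : Po (N + 1) k) : Po (N + 1) k :=
  (fun h => aeval F h)^[N + 1] (aeval F (pderiv 0 P) * b)

/-- the ideal of the points which are moved by `F` as by the Frobenius map -/
noncomputable def fid (P : Po (N + 1) k) (F : Tup (N + 1) k) (Q : ℕ) : Ideal (Po (N + 1) k) :=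
  Ideal.span (insert P (Set.range fun i : Fin N => X i.succ ^ Q - F i.succ))

end ring

/-- an irreducible hypersurface, the cone over a projective variety -/
structure Hyp {N : ℕ} {k : Type} [Field k] (P : Po (N + 1) k) (r : ℕ) : Prop where
  hom : P.IsHomogeneous r
  mon : Mny P
  irr : Irreducible P

/-- a projection of the cone `I = 0` to the hypersurface `P = 0` with the denominator `Δ` -/
structure Pro {L N : ℕ} {k : Type} [Field k] (I : Ideal (Po L k)) (l : Fin (N + 1) → Po L k)
    (P : Po (N + 1) k) (r : ℕ) (Δ : Po N k) (δ : ℕ) : Prop where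
  one : 1 ≤ N
  lin : ∀ i, (l i).IsHomogeneous 1
  hyp : Hyp P r
  dhom : Δ.IsHomogeneous δ
  dne : Δ ≠ 0
  le : r ≤ δ
  ker : ∀ q : Po (N + 1) k, aeval l q ∈ I ↔ P ∣ q
  den : ∀ (t : ℕ) (q : Po L k), q.IsHomogeneous t → ∃ q' : Po (N + 1) k,
    q'.IsHomogeneous (t + δ) ∧ aeval (fun j => l j.succ) Δ * q - aeval l q' ∈ I

end Pool.Agent.H18.HX
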