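import Pool.Agent.H18.HX.Basic

/-!
# Dense orbits on arbitrary varieties: the hypersurface in the coordinates of a small disc
-/

open MvPolynomial
open Pool.Agent.H12.ZD (pmap v O Res DenseOrbit NoInv)
open Pool.Agent.H18.HIT

namespace Pool.Agent.H18.HX

section affine

variable {L : ℕ} {k : Type} [Field k] (a : Fin L → k) (t : k)

/-- the affine change of coordinates `a + t x` -/
noncomputable def lt : Tup L k := fun i => C (a i) + C t * X i

/-- its inverse -/
noncomputable def li : Tup L k := fun i => C (t⁻¹) * (X i - C (a i))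

variable {t}

theorem aeval_lt_li (ht : t ≠ 0) (q : Po L k) : aeval (lt a t) (aeval (li a t) q) = q := by
  rw [← aeval_comp]
  have h : comp (li a t) (lt a t) = fun i => X i := by
    funext i
    change aeval (lt a t) (li a t i) = X i
    rw [li, map_mul, map_sub, aeval_X, aeval_C, aeval_C, algebraMap_eq, lt,
      add_sub_cancel_left, ← mul_assoc, ← C_mul, inv_mul_cancel₀ ht, C_1, one_mul]
  rw [h]
  exact aeval_X_left_apply q

theorem aeval_li_lt (ht : t ≠ 0) (q : Po L k) : aeval (li a t) (aeval (lt a t) q) = q := by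
  rw [← aeval_comp]
  have h : comp (lt a t) (li a t) = fun i => X i := by
    funext i
    change aeval (li a t) (lt a t i) = X i
    rw [lt, map_add, map_mul, aeval_X, aeval_C, aeval_C, algebraMap_eq, li, ← mul_assoc,
      ← C_mul, mul_inv_cancel₀ ht, C_1, one_mul]
    ring
  rw [h]
  exact aeval_X_left_apply q

/-- the change of coordinates as an isomorphism -/
noncomputable def le (ht : t ≠ 0) : Po L k ≃+* Po L k :=
  RingEquiv.ofRingHom (aeval (lt a t) : Po L k →ₐ[k] Po L k).toRingHom
    (aeval (li a t) : Po L k →ₐ[k] Po L k).toRingHom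
    (RingHom.ext fun q => aeval_lt_li a ht q) (RingHom.ext fun q => aeval_li_lt a ht q)

theorem dvd_lt (ht : t ≠ 0) (P q : Po L k) : aeval (lt a t) P ∣ aeval (lt a t) q ↔ P ∣ q := by
  constructor
  · rintro ⟨c, hc⟩
    refine ⟨aeval (li a t) c, ?_⟩
    rw [← aeval_li_lt a ht q, hc, map_mul, aeval_li_lt a ht]
  · rintro ⟨c, rfl⟩
    exact ⟨aeval (lt a t) c, map_mul _ _ _⟩

theorem eval_lt (q : Po L k) (x : Fin L → k) :
    eval x (aeval (lt a t) q) = eval (fun i => a i + t * x i) q := by
  have h : pmap (lt a t) x = fun i => a i + t * x i := by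
    funext i
    simp [pmap, lt]
  rw [eval_aeval, h]

theorem irreducible_lt (ht : t ≠ 0) {P : Po L k} (hP : Irreducible P) :
    Irreducible (aeval (lt a t) P) :=
  (MulEquiv.irreducible_iff (le a ht)).mpr hP

end affine

section monic

variable {N : ℕ} {k : Type} [Field k]

/-- substitution and `finSuccEquiv` -/
theorem fse_lt (a : Fin (N + 1) → k) (t : k) (q : Po (N + 1) k) :
    finSuccEquiv k N (aeval (lt a t) q) =
      ((finSuccEquiv k N q).map (aeval (fun j : Fin N => C (a j.succ) + C t * X j) :
        Po N k →ₐ[k] Po N k).toRingHom).comp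
          (Polynomial.C (C (a 0)) + Polynomial.C (C t) * Polynomial.X) := by
  induction q using MvPolynomial.induction_on with
  | C c =>
    rw [aeval_C, algebraMap_eq, finSuccEquiv_apply, eval₂Hom_C, RingHom.comp_apply,
      Polynomial.map_C, Polynomial.C_comp]
    congr 1
    exact (aeval_C _ _).symm
  | add p q hp hq =>
    rw [map_add, map_add, hp, hq, map_add, Polynomial.map_add, Polynomial.add_comp]
  | mul_X p i hp =>
    rw [map_mul, map_mul, hp, map_mul, Polynomial.map_mul, Polynomial.mul_comp, aeval_X]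
    congr 1
    refine Fin.cases ?_ (fun j => ?_) i
    · rw [lt, map_add, map_mul, finSuccEquiv_X_zero, Polynomial.map_X, Polynomial.X_comp,
        finSuccEquiv_apply, finSuccEquiv_apply, eval₂Hom_C, eval₂Hom_C]
      rfl
    · rw [lt, map_add, map_mul, finSuccEquiv_X_succ, Polynomial.map_C, Polynomial.C_comp,
        finSuccEquiv_apply, finSuccEquiv_apply, eval₂Hom_C, eval₂Hom_C]
      have h1 : (aeval (fun j : Fin N => C (a j.succ) + C t * X j) :
        Po N k →ₐ[k] Po N k).toRingHom (X j) = C (a j.succ) + C t * X j := aeval_X _ _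
      rw [h1, Polynomial.C_add, Polynomial.C_mul]
      rfl

theorem monic_lt (a : Fin (N + 1) → k) {t : k} (ht : t ≠ 0) {P : Po (N + 1) k} (hP : Mny P) :
    Mny (C ((t ^ (finSuccEquiv k N P).natDegree)⁻¹) * aeval (lt a t) P) := by
  have h0 : (C t : Po N k) ≠ 0 := by
    rw [Ne, C_eq_zero]
    exact ht
  have hdeg : (Polynomial.C (C (a 0)) + Polynomial.C (C t) * Polynomial.X :
      Polynomial (Po N k)).natDegree = 1 := by
    rw [add_comm]
    exact Polynomial.natDegree_linear h0
  have hlead : (Polynomial.C (C (a 0)) + Polynomial.C (C t) * Polynomial.X :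
      Polynomial (Po N k)).leadingCoeff = C t := by
    rw [add_comm]
    exact Polynomial.leadingCoeff_linear h0
  have hm : ((finSuccEquiv k N P).map (aeval (fun j : Fin N => C (a j.succ) + C t * X j) :
        Po N k →ₐ[k] Po N k).toRingHom).Monic := Polynomial.Monic.map _ hP
  have hn : ((finSuccEquiv k N P).map (aeval (fun j : Fin N => C (a j.succ) + C t * X j) :
        Po N k →ₐ[k] Po N k).toRingHom).natDegree = (finSuccEquiv k N P).natDegree :=
    Polynomial.Monic.natDegree_map hP _
  unfold Mny
  rw [map_mul, fse_lt, Polynomial.Monic, Polynomial.leadingCoeff_mul,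
    Polynomial.leadingCoeff_comp (by rw [hdeg]; norm_num), hm.leadingCoeff, one_mul, hlead, hn]
  have h1 : finSuccEquiv k N (C ((t ^ (finSuccEquiv k N P).natDegree)⁻¹)) =
      Polynomial.C (C ((t ^ (finSuccEquiv k N P).natDegree)⁻¹)) := by
    rw [finSuccEquiv_apply, eval₂Hom_C]
    rfl
  rw [h1, Polynomial.leadingCoeff_C, ← C_pow, ← C_mul, inv_mul_cancel₀ (pow_ne_zero _ ht), C_1]

end monic

end Pool.Agent.H18.HX
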