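import Pool.Agent.H18.HX.All

/-!
# The final theorems on arbitrary varieties
-/

open MvPolynomial
open Pool.Agent.H12.ZD (pmap v O Res DenseOrbit NoInv)
open Pool.Agent.H18.HIT

namespace Pool.Agent.H18.HX

section

variable {L : ℕ} {k : Type} [Field k] [IsAlgClosed k] [CharZero k] {I : Ideal (Po L k)}

/-- an element of a prime ideal is recognized at the zeros of the ideal -/
theorem mem_of_zer [hI : I.IsPrime] {c : Po L k} (h : ∀ x, Zer I x → eval x c = 0) : c ∈ I := by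
  by_contra hc
  obtain ⟨x, hx, hxc⟩ := All.nsi L k I c hc
  exact hxc (h x hx)

/-- a map without base points has no base points on the orbit -/
theorem iter_ne {f : Tup L k} (hinv : ∀ c ∈ I, aeval f c ∈ I)
    (hbase : ∀ x, Zer I x → pmap f x = 0 → x = 0) {x : Fin L → k} (hx : Zer I x) (hx0 : x ≠ 0)
    (n : ℕ) : (pmap f)^[n] x ≠ 0 := by
  induction n with
  | zero => exact hx0
  | succ n ih =>
    rw [Function.iterate_succ_apply']
    exact fun h => ih (hbase _ (zer_iterate hinv hx n) h)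

theorem final_of (hPEG : T_PEG) (hHIG : T_HIG) (hPRX : T_PRX) (hTWI : T_TWI)
    (hI : I.IsPrime) (hhom : ∀ c ∈ I, ∀ t, homogeneousComponent t c ∈ I) (hne : ∃ i, X i ∉ I)
    (f : Tup L k) (d : ℕ) (hf : ∀ i, (f i).IsHomogeneous d)
    (hinv : ∀ c ∈ I, aeval f c ∈ I)
    (hlarge : (2 ≤ d ∧ ∀ x, Zer I x → pmap f x = 0 → x = 0) ∨
      ∃ (g : Tup L k) (e m n dg : ℕ), Pvi I f e ∧
        (∀ u : Fin (n + 2) → Po L k, ∃ q : Po (n + 2) k, q ≠ 0 ∧ aeval u q ∈ I) ∧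
        (∀ i, (g i).IsHomogeneous dg) ∧ 1 ≤ dg ∧ (∃ i, g i ∉ I) ∧
        (∀ x, Zer I x → ∀ i j, (pmap f)^[m] x i * eval x (g j) =
          (pmap f)^[m] x j * eval x (g i)) ∧ dg ^ (n - 1) < e ^ m)
    (b : Po L k) (t : ℕ) (hb : b.IsHomogeneous t) (hbI : b ∉ I) :
    ∃ x : Fin L → k, Zer I x ∧ (∀ j : ℕ, (pmap f)^[j] x ≠ 0) ∧
      (∀ j : ℕ, eval ((pmap f)^[j] x) b ≠ 0) ∧
      ∀ (s : ℕ) (h : Po L k), h.IsHomogeneous s → (∀ j : ℕ, eval ((pmap f)^[j] x) h = 0) →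
        h ∈ I := by
  rcases hlarge with ⟨hd, hbase⟩ | ⟨g, e, m, n, dg, hcov, hdim, hg, hdg, hgI, hcross, hdeg⟩
  · obtain ⟨x, hx, hx0, hxb, hxd⟩ := var3 (All.xk_of hPEG hHIG hPRX) All.pvi All.nfa All.nfb
      All.nfc All.lft hTWI All.trv All.inr All.pei All.cvd All.dgx All.pol hI hhom hne f b d t hd
      hf hinv hbase hb hbI
    exact ⟨x, hx, iter_ne hinv hbase hx hx0, hxb, hxd⟩
  · refine var2 (All.xk_of hPEG hHIG hPRX) All.nsi All.pvi All.pvr All.nfa All.nfb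
      All.nfc All.lft hTWI All.trv hI hhom hne f g b d dg e m n t hf hinv hcov hdim hg hdg hgI
      (fun i j => ?_) hdeg hb hbI
    apply mem_of_zer
    intro x hx
    have h1 := hcross x hx i j
    rw [map_sub, map_mul, map_mul, sub_eq_zero]
    have h2 : ∀ l, eval x (it f m l) = (pmap f)^[m] x l := fun l => congrFun (pmap_it f m x) l
    rw [h2, h2]
    exact h1

end

end Pool.Agent.H18.HX
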