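import Pool.Agent.H18.VZ.Nfi
import Pool.Agent.H54.HX.PTS
import Pool.Agent.H63.HX.ELI

/-!
# Board hx_modules, row TWI: the number of preimages for the self-map of the hypersurface
-/

open MvPolynomial
open Pool.Agent.H12.ZD (pmap)
open Pool.Agent.H18.HIT

namespace Pool.Agent.H18.HX

theorem exists_nth_roots {k : Type} [Field k] [IsAlgClosed k] [CharZero k] {μ : ℕ} (hμ : 1 ≤ μ)
    {w : k} (hw : w ≠ 0) : ∃ R : Finset k, R.card = μ ∧ ∀ s ∈ R, s ^ μ = w := by
  classical
  have hsep : (Polynomial.X ^ μ - Polynomial.C w : Polynomial k).Separable :=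
    Polynomial.separable_X_pow_sub_C w (by exact_mod_cast (by omega : μ ≠ 0)) hw
  have hne : (Polynomial.X ^ μ - Polynomial.C w : Polynomial k) ≠ 0 :=
    Polynomial.X_pow_sub_C_ne_zero (by omega) w
  refine ⟨(Polynomial.X ^ μ - Polynomial.C w : Polynomial k).roots.toFinset, ?_, fun s hs => ?_⟩
  · rw [Multiset.toFinset_card_of_nodup (Polynomial.nodup_roots hsep),
      ← (IsAlgClosed.splits _).natDegree_eq_card_roots, Polynomial.natDegree_X_pow_sub_C]
  · rw [Multiset.mem_toFinset, Polynomial.mem_roots hne, Polynomial.IsRoot.def,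
      Polynomial.eval_sub, Polynomial.eval_pow, Polynomial.eval_X, Polynomial.eval_C,
      sub_eq_zero] at hs
    exact hs

theorem zer_smul {L : ℕ} {k : Type} [Field k] {I : Ideal (Po L k)}
    (hhom : ∀ c ∈ I, ∀ t, homogeneousComponent t c ∈ I) {x : Fin L → k} (hx : Zer I x) (s : k) :
    Zer I (fun i => s * x i) := by
  intro q hq
  rw [← sum_homogeneousComponent q, map_sum]
  apply Finset.sum_eq_zero
  intro t _
  rw [eval_smul_of_hom (homogeneousComponent_isHomogeneous t q), hx _ (hhom q hq t), mul_zero]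

/-- values of substitutions -/
theorem eval_aeval_gen {L M : ℕ} {k : Type} [Field k] (x : Fin L → k) (G : Fin M → Po L k)
    (q : Po M k) : eval x (aeval G q) = eval (fun i => eval x (G i)) q := by
  have h2 : (aeval x : Po L k →ₐ[k] k).comp (aeval G : Po M k →ₐ[k] Po L k) =
      (aeval (fun i => eval x (G i)) : Po M k →ₐ[k] k) := by
    apply algHom_ext
    intro i
    rw [AlgHom.comp_apply, aeval_X, aeval_X]
    rfl
  exact DFunLike.congr_fun h2 q

/-- the denominator works for all functions -/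
theorem den_all {L N r δ : ℕ} {k : Type} [Field k] {I : Ideal (Po L k)}
    {l : Fin (N + 1) → Po L k} {P : Po (N + 1) k} {Δ : Po N k} (hpro : Pro I l P r Δ δ)
    (q : Po L k) : ∃ q' : Po (N + 1) k,
      aeval (fun j : Fin N => l j.succ) Δ * q - aeval l q' ∈ I := by
  choose q' _ hq' using fun t => hpro.den t (homogeneousComponent t q)
    (homogeneousComponent_isHomogeneous t q)
  refine ⟨∑ t ∈ Finset.range (q.totalDegree + 1), q' t, ?_⟩
  have h1 : aeval (fun j : Fin N => l j.succ) Δ * q -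
      aeval l (∑ t ∈ Finset.range (q.totalDegree + 1), q' t) =
      ∑ t ∈ Finset.range (q.totalDegree + 1), (aeval (fun j : Fin N => l j.succ) Δ *
        homogeneousComponent t q - aeval l (q' t)) := by
    rw [Finset.sum_sub_distrib, ← Finset.mul_sum, sum_homogeneousComponent, map_sum]
  rw [h1]
  exact I.sum_mem fun t _ => hq' t

theorem pf_TWI : T_TWI := by
  classical
  intro L N r δ d e k _ _ _ I hI l P Δ g F hpro hhom hg hs hF hFl hcov
  have hr : 1 ≤ r := by
    by_contra hr0
    have hr0' : r = 0 := by omega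
    apply hpro.hyp.irr.not_isUnit
    have h1 : P.totalDegree = 0 := by
      have := hpro.hyp.hom.totalDegree_le
      omega
    rw [totalDegree_eq_zero_iff_eq_C] at h1
    rw [h1, isUnit_map_iff, isUnit_iff_ne_zero]
    intro h0
    rw [h0, C_0] at h1
    exact hpro.hyp.irr.ne_zero h1
  have hδ : 1 ≤ δ := hr.trans hpro.le
  obtain ⟨pts1, pts2, pts3⟩ := Pool.Agent.H54.HX.pf_PTS L N r δ k I l P Δ hpro hhom
  obtain ⟨D', hD'⟩ : ∃ D' : Po L k, D' = aeval (fun j : Fin N => l j.succ) Δ := ⟨_, rfl⟩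
  have hDI : D' ∉ I := by rw [hD']; exact Pool.Agent.H18.VZ.den_notMem hpro
  have hDh : D'.IsHomogeneous (1 * δ) := by
    rw [hD']
    exact hpro.dhom.aeval _ fun j => hpro.lin j.succ
  rw [one_mul] at hDh
  have hDe : ∀ x : Fin L → k, eval (fun j : Fin N => eval x (l j.succ)) Δ = eval x D' := by
    intro x
    rw [hD']
    exact (eval_aeval_gen x _ _).symm
  obtain ⟨c, hcI, hc⟩ := hcov
  obtain ⟨c', A, hc'I, hc'⟩ := Pool.Agent.H63.HX.pf_ELI L k I g hs D' hDI
  obtain ⟨q', hq'⟩ := den_all hpro (c * c')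
  rw [← hD'] at hq'
  have hupD : aeval l (up Δ) = D' := by rw [hD', up, aeval_rename]; rfl
  refine ⟨q' * up Δ, ?_, fun y hy hyc => ?_⟩
  · rw [Ideal.mem_span_singleton]
    intro h
    have h1 := (hpro.ker _).mpr h
    rw [map_mul, hupD] at h1
    have h2 := (hI.mem_or_mem h1).resolve_right hDI
    have h3 := I.add_mem hq' h2
    rw [sub_add_cancel] at h3
    rcases hI.mem_or_mem h3 with h4 | h4
    · exact hDI h4
    · exact (hI.mem_or_mem h4).elim hcI hc'I
  rw [map_mul] at hyc
  have hyq : eval y q' ≠ 0 := left_ne_zero_of_mul hyc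
  have hyΔ : eval (fun j : Fin N => y j.succ) Δ ≠ 0 := by
    have h1 := right_ne_zero_of_mul hyc
    rw [up, eval_rename] at h1
    exact h1
  obtain ⟨a, ha, hay⟩ := pts2 y (zer_span.mp hy) hyΔ
  have hal : eval a (aeval l q') = eval y q' := by
    rw [eval_aeval_gen]
    congr 2
    exact funext hay
  have hacc : eval a (c * c') ≠ 0 := by
    have h1 := ha _ hq'
    rw [map_sub, map_mul, hal, sub_eq_zero] at h1
    rw [← h1] at hyq
    exact right_ne_zero_of_mul hyq
  rw [map_mul] at hacc
  obtain ⟨S, hS, hS1, hS2⟩ := hc a ha (left_ne_zero_of_mul hacc)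
  have hac' := right_ne_zero_of_mul hacc
  have hSD : ∀ x ∈ S, eval x D' ≠ 0 := by
    intro x hx
    have h1 := (hS1 x hx).1 _ hc'
    rw [map_sub, map_mul, sub_eq_zero, eval_aeval, (hS1 x hx).2] at h1
    rw [h1] at hac'
    exact left_ne_zero_of_mul hac'
  obtain ⟨μ, hμ⟩ : ∃ μ, μ = d + δ := ⟨_, rfl⟩
  have hμ1 : 1 ≤ μ := by omega
  have hroots : ∀ x : Fin L → k, ∃ R : Finset k, eval x D' ≠ 0 → R.card = μ ∧
      ∀ s ∈ R, s ^ μ * eval x D' = 1 := by
    intro x
    by_cases hx : eval x D' = 0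
    · exact ⟨∅, fun h => absurd hx h⟩
    · obtain ⟨R, hR1, hR2⟩ := exists_nth_roots hμ1 (inv_ne_zero hx)
      exact ⟨R, fun _ => ⟨hR1, fun s hs => by rw [hR2 s hs, inv_mul_cancel₀ hx]⟩⟩
  choose R hR using hroots
  have hsne : ∀ x ∈ S, ∀ s ∈ R x, s ≠ 0 := by
    intro x hx s hs h0
    have h1 := (hR x (hSD x hx)).2 s hs
    rw [h0, zero_pow (by omega), zero_mul] at h1
    exact zero_ne_one h1
  have hx0 : ∀ x ∈ S, x ≠ 0 := by
    rintro x hx rfl
    apply hSD 0 hx
    have h1 := eval_smul_of_hom hDh (0 : k) (0 : Fin L → k)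
    rw [zero_pow (by omega), zero_mul] at h1
    rw [← h1]
    congr 2
    funext i
    rw [zero_mul, Pi.zero_apply]
  have hlin : ∀ (s : k) (x : Fin L → k) (i : Fin (N + 1)),
      eval (fun j => s * x j) (l i) = s * eval x (l i) := by
    intro s x i
    rw [eval_smul_of_hom (hpro.lin i), pow_one]
  refine ⟨(S.sigma fun x => R x).image fun p => fun i => p.2 * eval p.1 (l i), ?_, ?_⟩
  · rw [Finset.card_image_of_injOn, Finset.card_sigma,
      Finset.sum_congr rfl fun x hx => (hR x (hSD x hx)).1, Finset.sum_const, smul_eq_mul, hS, hμ,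
      mul_comm]
    rintro ⟨x, s⟩ hp ⟨x', s'⟩ hp' heq
    rw [Finset.mem_coe, Finset.mem_sigma] at hp hp'
    obtain ⟨hx, hs⟩ := hp
    obtain ⟨hx', hs'⟩ := hp'
    simp only at hx hs hx' hs'
    have h1 : ∀ i, eval (fun j => s * x j) (l i) = eval (fun j => s' * x' j) (l i) := by
      intro i
      rw [hlin, hlin]
      exact congrFun heq i
    have h2 : (fun j => s * x j) = fun j => s' * x' j := by
      apply pts3 _ _ (zer_smul hhom (hS1 x hx).1 s) (zer_smul hhom (hS1 x' hx').1 s') h1
      rw [hDe, eval_smul_of_hom hDh]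
      exact mul_ne_zero (pow_ne_zero _ (hsne x hx s hs)) (hSD x hx)
    have hs'0 := hsne x' hx' s' hs'
    have h3 : x' = x := by
      apply hS2 x hx x' hx' (s'⁻¹ * s)
      intro i
      have h4 : s * x i = s' * x' i := congrFun h2 i
      rw [mul_assoc, h4, ← mul_assoc, inv_mul_cancel₀ hs'0, one_mul]
    subst h3
    obtain ⟨i, hi⟩ := Function.ne_iff.mp (hx0 x' hx)
    have h4 : s * x' i = s' * x' i := congrFun h2 i
    have h5 : s = s' := mul_right_cancel₀ hi h4
    rw [h5]
  · intro z hz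
    rw [Finset.mem_image] at hz
    obtain ⟨⟨x, s⟩, hp, rfl⟩ := hz
    rw [Finset.mem_sigma] at hp
    obtain ⟨hx, hs⟩ := hp
    simp only at hx hs
    obtain ⟨hzx, hgx⟩ := hS1 x hx
    have hzs := zer_smul hhom hzx s
    have h1 : (fun i => s * eval x (l i)) = fun i => eval (fun j => s * x j) (l i) := by
      funext i
      rw [hlin]
    refine ⟨?_, ?_⟩
    · rw [zer_span]
      change eval (fun i => s * eval x (l i)) P = 0
      rw [h1]
      exact pts1 _ hzs
    · change pmap F (fun i => s * eval x (l i)) = y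
      rw [h1]
      funext i
      have h2 := hzs _ (hFl i)
      rw [← hD', map_sub, map_mul, sub_eq_zero, eval_smul_of_hom hDh, eval_aeval,
        eval_aeval_gen] at h2
      have h3 : pmap g (fun j => s * x j) = fun j => s ^ d * a j := by
        rw [← hgx]
        exact pmap_smul_of_hom hg s x
      rw [h3, eval_smul_of_hom (hpro.lin i), pow_one, hay i] at h2
      have h4 := (hR x (hSD x hx)).2 s hs
      change eval (fun i => eval (fun j => s * x j) (l i)) (F i) = y i
      rw [← h2]
      calc s ^ δ * eval x D' * (s ^ d * y i) = s ^ (d + δ) * eval x D' * y i := by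
            rw [pow_add]
            ring
        _ = y i := by rw [← hμ, h4, one_mul]

end Pool.Agent.H18.HX
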