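import Pool.Agent.H18.HX.Defs

/-!
# Dense orbits on arbitrary varieties: the targets
-/

open MvPolynomial
open Pool.Agent.H12.ZD (pmap v O Res DenseOrbit NoInv)
open Pool.Agent.H18.HIT

namespace Pool.Agent.H18.HX

/-! ## A. Frobenius points on a hypersurface -/

/-- Wronskians: elements which are linearly independent over the constants -/
def T_WRO : Prop := ∀ (K : Type) [Field K] (N : ℕ) (δ : Fin N → Derivation ℤ K K) (ι : Type)
  [Fintype ι] [DecidableEq ι] (G : ι → K),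
  (∀ lam : ι → K, (∀ i b, δ i (lam b) = 0) → ∑ b, lam b * G b = 0 → lam = 0) →
  ∃ D : ι → List (Fin N),
    (Matrix.of fun a b => (D a).foldr (fun i x => δ i x) (G b)).det ≠ 0

/-- the common constants of `N` derivations -/
def T_CNS : Prop := ∀ (k K : Type) [Field k] [CharZero k] [IsAlgClosed k] [Field K] [Algebra k K]
  (N : ℕ) (x : Fin N → K) (δ : Fin N → Derivation k K K) (u : K), IsTranscendenceBasis k x →
  u ≠ 0 → (∀ i j, δ i (x j) = if i = j then u else 0) →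
  ∀ φ : K, (∀ i, δ i φ = 0) → ∃ c : k, φ = algebraMap k K c

/-- Wronskians on a hypersurface -/
def T_WPO : Prop := ∀ (N : ℕ) (k : Type) [Field k] [CharZero k] [IsAlgClosed k]
  (P : Po (N + 1) k), Irreducible P → Mny P → ∀ (ι : Type) [Fintype ι] [DecidableEq ι]
  (G : ι → Po (N + 1) k), (∀ a : ι → k, P ∣ ∑ b, C (a b) * G b → a = 0) →
  ∃ D : ι → List (Fin N), ¬ P ∣ (Matrix.of fun a b => dw P (D a) (G b)).det

/-- linear independence -/
def T_IND : Prop := ∀ (N r : ℕ) (k : Type) [Field k] (P : Po (N + 1) k) (F : Tup (N + 1) k)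
  (c : Po (N + 1) k), Hyp P r → Slf (Ideal.span {P}) F → ¬ P ∣ c → ∀ a : Ix N r → k,
  P ∣ ∑ b, C (a b) * gl P F c b → a = 0

/-- all constructions commute with ring homomorphisms -/
def T_MPW : Prop := ∀ (N r : ℕ) (R S : Type) [CommRing R] [CommRing S] (φ : R →+* S)
  (P : Po (N + 1) R) (F : Tup (N + 1) R) (c : Po (N + 1) R),
  (Mny P → Mny (map φ P)) ∧ (∀ j, ec (map φ P) j = map φ (ec P j)) ∧
  (∀ D : Ix N r → List (Fin N), wr (map φ P) (mp φ F) (map φ c) D = map φ (wr P F c D)) ∧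
  cc (map φ P) (mp φ F) (map φ c) = map φ (cc P F c)

/-- a bounded representation of the elements of the ideal `(P, x_i ^ s - h_i)` -/
def T_BRL : Prop := ∀ (N r s δ D : ℕ) (κ : Type) [Field κ] (P : Po (N + 1) κ)
  (h : Fin N → Po (N + 1) κ) (u : Po (N + 1) κ), P.IsHomogeneous r → Mny P →
  (∀ i, (h i).totalDegree ≤ δ) → δ < s →
  u ∈ Ideal.span (insert P (Set.range fun i : Fin N => X i.succ ^ s - h i)) → u.totalDegree ≤ D →
  ∃ (g : Po (N + 1) κ) (G : Fin N → Po (N + 1) κ), u = P * g + ∑ i, (X i.succ ^ s - h i) * G i ∧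
    ∀ i, G i = 0 ∨ (G i).totalDegree + s ≤ D

/-- the leading part of the relation `ε c = 0` -/
def T_KEA : Prop := ∀ (N r d Q γ : ℕ) (κ : Type) [Field κ] (P : Po (N + 1) κ)
  (F : Tup (N + 1) κ) (c : Po (N + 1) κ), 1 ≤ r → P.IsHomogeneous r → Mny P →
  (∀ i, (F i).IsHomogeneous d) → d < Q → c.IsHomogeneous γ → ep P F r Q * c ∈ fid P F Q →
  ∑ l : Ix N r, gl P F c l * (X 0 ^ (sz l) * ∏ i, X i.succ ^ (r - 1 - (l.1 i : ℕ))) ^ Q ∈
    Ideal.span (insert P (Set.range fun i : Fin N => X i.succ ^ (Q * r)))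

/-- elimination with the Wronskian -/
def T_KEB : Prop := ∀ (N r p t : ℕ) (κ : Type) [Field κ] [Fact p.Prime] [CharP κ p]
  (P : Po (N + 1) κ) (F : Tup (N + 1) κ) (c : Po (N + 1) κ) (D : Ix N r → List (Fin N)),
  1 ≤ t → 1 ≤ r → P.IsHomogeneous r → Mny P → (wr P F c D).totalDegree < p ^ t →
  ∑ l : Ix N r, gl P F c l * (X 0 ^ (sz l) * ∏ i, X i.succ ^ (r - 1 - (l.1 i : ℕ))) ^ (p ^ t) ∈
    Ideal.span (insert P (Set.range fun i : Fin N => X i.succ ^ (p ^ t * r))) →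
  P ∣ wr P F c D

/-- the identity which defines `ε` -/
def T_EPA : Prop := ∀ (N r p t : ℕ) (κ : Type) [Field κ] [Fact p.Prime] [CharP κ p]
  (P : Po (N + 1) κ) (F : Tup (N + 1) κ), P.IsHomogeneous r → Mny P →
  map (iterateFrobenius κ p t) P = P → P ∣ aeval F P →
  ep P F r (p ^ t) * (X 0 ^ (p ^ t) - F 0) ∈ fid P F (p ^ t)

/-- nilpotent elements -/
def T_NIX : Prop := ∀ (N r Q M : ℕ) (κ : Type) [Field κ] (P : Po (N + 1) κ) (F : Tup (N + 1) κ)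
  (b : Po (N + 1) κ), P.IsHomogeneous r → Mny P → r ≤ Q → (∀ i, (F i).totalDegree < Q) →
  b ^ M ∈ fid P F Q → b ^ (Q ^ (N + 1)) ∈ fid P F Q

/-- the relation which follows from nilpotence -/
def T_EPB : Prop := ∀ (N r p t : ℕ) (κ : Type) [Field κ] [Fact p.Prime] [CharP κ p]
  (P : Po (N + 1) κ) (F : Tup (N + 1) κ) (b : Po (N + 1) κ), P.IsHomogeneous r → Mny P →
  map (iterateFrobenius κ p t) P = P → (∀ i, map (iterateFrobenius κ p t) (F i) = F i) →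
  map (iterateFrobenius κ p t) b = b →
  ep P F r (p ^ t) * (X 0 ^ (p ^ t) - F 0) ∈ fid P F (p ^ t) →
  (ep P F r (p ^ t) * b) ^ ((p ^ t) ^ (N + 1)) ∈ fid P F (p ^ t) →
  ep P F r (p ^ t) * cc P F b ∈ fid P F (p ^ t)

/-- a point of the hypersurface which is moved by `F` as by the Frobenius map -/
def T_FRY : Prop := ∀ (N r d m p t : ℕ) (κ : Type) [Field κ] [IsAlgClosed κ] [Fact p.Prime]
  [CharP κ p] (P : Po (N + 1) κ) (F : Tup (N + 1) κ) (b : Po (N + 1) κ)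
  (D : Ix N r → List (Fin N)), 1 ≤ t → 1 ≤ r → P.IsHomogeneous r → Mny P →
  (∀ i, (F i).IsHomogeneous d) → b.IsHomogeneous m → d < p ^ t → r ≤ p ^ t →
  map (iterateFrobenius κ p t) P = P → (∀ i, map (iterateFrobenius κ p t) (F i) = F i) →
  map (iterateFrobenius κ p t) b = b → P ∣ aeval F P →
  (wr P F (cc P F b) D).totalDegree < p ^ t → ¬ P ∣ wr P F (cc P F b) D →
  ∃ x : Fin (N + 1) → κ, eval x P = 0 ∧ (∀ i, eval x (F i) = x i ^ (p ^ t)) ∧ eval x b ≠ 0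

/-- reduction modulo a large prime preserves that `P` does not divide `w` -/
def T_RED : Prop := ∀ (N : ℕ) (P w : Po (N + 1) Qb), Mny P → ¬ P ∣ w → ∃ M : ℕ,
  ∀ p : Nat.Primes, M < (p : ℕ) → ∀ P₀ w₀ : Po (N + 1) (O p), Mny P₀ →
  map (O p).subtype P₀ = P → map (O p).subtype w₀ = w →
  ¬ map (IsLocalRing.residue (O p)) P₀ ∣ map (IsLocalRing.residue (O p)) w₀

/-- points of the hypersurface over the residue field can be lifted -/
def T_LFX : Prop := ∀ (N : ℕ) (p : Nat.Primes) (P : Po (N + 1) (O p)), Mny P →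
  ∀ x : Fin (N + 1) → Res p, eval x (map (IsLocalRing.residue (O p)) P) = 0 →
  ∃ a : Fin (N + 1) → O p, (∀ i, IsLocalRing.residue (O p) (a i) = x i) ∧ eval a P = 0

/-- a point of the hypersurface with good orbit at a large prime -/
def T_GDX : Prop := ∀ (N r d M : ℕ) (P : Po (N + 1) Qb) (F : Tup (N + 1) Qb)
  (s : Finset (Po (N + 1) Qb)), 1 ≤ N → Hyp P r → (∀ i, (F i).IsHomogeneous d) →
  Slf (Ideal.span {P}) F → (∀ b ∈ s, (∃ m, b.IsHomogeneous m) ∧ ¬ P ∣ b) →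
  ∃ (p : Nat.Primes) (P₀ : Po (N + 1) (O p)) (F₀ : Tup (N + 1) (O p)) (a : Fin (N + 1) → O p),
    M < (p : ℕ) ∧ Mny P₀ ∧ map (O p).subtype P₀ = P ∧ (∀ i, map (O p).subtype (F₀ i) = F i) ∧
    eval a P₀ = 0 ∧ ∀ b ∈ s, ∀ n, v p (eval (cO ((pmap F₀)^[n] a)) b) = 1

/-! ## B. The jacobian -/

/-- a modification of the map away from the hypersurface -/
def T_CHH : Prop := ∀ (N r d : ℕ) (k : Type) [Field k] [CharZero k] (P : Po (N + 1) k)
  (F : Tup (N + 1) k), 1 ≤ N → Hyp P r → r ≤ d → (∀ i, (F i).IsHomogeneous d) →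
  Slf (Ideal.span {P}) F → ∃ (F' : Tup (N + 1) k) (W : Po (N + 1) k),
    (∀ i, (F' i).IsHomogeneous d) ∧ (∀ i, P ∣ F' i - F i) ∧ aeval F' P = P * W ∧ ¬ P ∣ W

/-- the jacobian does not vanish on the hypersurface -/
def T_JCX : Prop := ∀ (N : ℕ) (k : Type) [Field k] [CharZero k] (P W : Po (N + 1) k)
  (F : Tup (N + 1) k), Irreducible P → Mny P → Slf (Ideal.span {P}) F → aeval F P = P * W →
  ¬ P ∣ W → ¬ P ∣ jac F

/-! ## C. Hilbert irreducibility and the preimage near the orbit -/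

/-- every element divides a pulled back element -/
def T_ELI : Prop := ∀ (L : ℕ) (k : Type) [Field k] (I : Ideal (Po L k)) [I.IsPrime]
  (f : Tup L k), Slf I f → ∀ c, c ∉ I → ∃ c' A : Po L k, c' ∉ I ∧ aeval f c' - c * A ∈ I

/-- the number of preimages under an iterate -/
def T_CNI : Prop := ∀ (L : ℕ) (k : Type) [Field k] [Infinite k] (I : Ideal (Po L k)) [I.IsPrime]
  (f : Tup L k) (e n : ℕ), Slf I f → Cvi I f e → Cvi I (it f n) (e ^ n)

/-- the coordinates `G i.succ` are algebraically independent on the hypersurface, all other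
functions are algebraic over them -/
def T_ALX : Prop := ∀ (N : ℕ) (k : Type) [Field k] (P : Po (N + 1) k) (G : Tup (N + 1) k),
  Irreducible P → Mny P → Slf (Ideal.span {P}) G →
  (∀ q : Po N k, P ∣ aeval (fun j : Fin N => G j.succ) q → q = 0) ∧
  ∀ i, ∃ Q : Polynomial (Po N k), Q ≠ 0 ∧ P ∣ evg (fun j : Fin N => G j.succ) (X i) Q

/-- primitive elements -/
def T_PEG : Prop := ∀ (L N : ℕ) (k : Type) [Field k] [CharZero k] (I : Ideal (Po L k))
  [I.IsPrime] (g : Fin N → Po L k), (∀ q : Po N k, aeval g q ∈ I → q = 0) →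
  (∀ i, ∃ Q : Polynomial (Po N k), Q ≠ 0 ∧ evg g (X i) Q ∈ I) →
  ∃ (θ : Po L k) (Φ : Polynomial (Po N k)) (Δ : Po N k) (R : Fin L → Polynomial (Po N k)),
    Φ.Monic ∧ Irreducible Φ ∧ evg g θ Φ ∈ I ∧ Δ ≠ 0 ∧
    ∀ i, aeval g Δ * X i - evg g θ (R i) ∈ I

/-- points with integer coordinates whose fibre is one Galois orbit -/
def T_HIG : Prop := ∀ (L N : ℕ) (I : Ideal (Po L Qb)) [I.IsPrime] (g : Fin N → Po L Qb)
  (s : Finset (Po L Qb)) (c : Po N Qb), (∀ q : Po N Qb, aeval g q ∈ I → q = 0) →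
  (∀ i, ∃ Q : Polynomial (Po N Qb), Q ≠ 0 ∧ evg g (X i) Q ∈ I) → c ≠ 0 →
  ∃ w : Fin N → ℤ, eval (cZ w) c ≠ 0 ∧ ∀ x x' : Fin L → Qb, Zer I x → Zer I x' →
    (∀ j, eval x (g j) = (w j : Qb)) → (∀ j, eval x' (g j) = (w j : Qb)) →
    ∃ σ : Qb ≃+* Qb, (∀ q ∈ s, map (σ : Qb →+* Qb) q = q) ∧ ∀ i, σ (x i) = x' i

/-- a preimage in the closure of the forward orbit -/
def T_PRX : Prop := ∀ (L N : ℕ) (p : Nat.Primes) (H : Tup L (O p)) (ι : Fin N → Fin L)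
  (z : Fin L → O p) (θ : Po L Qb) (Φ : Polynomial (Po N Qb)) (Δ : Po N Qb)
  (R : Fin L → Polynomial (Po N Qb)), 3 ≤ (p : ℕ) → Φ.Monic →
  evg (fun j => flQ p H (ι j)) θ Φ ∈ van (flQ p H) (cO z) →
  (∀ i, aeval (fun j => flQ p H (ι j)) Δ * X i - evg (fun j => flQ p H (ι j)) θ (R i) ∈
    van (flQ p H) (cO z)) → eval (fun j => cO z (ι j)) Δ ≠ 0 →
  ∃ x : Fin L → O p, pmap (fl p H) x = z ∧ ∀ c ∈ van (flQ p H) (cO z), eval (cO x) c = 0

/-- Hensel's lemma: points of the hypersurface over given coordinates `X i.succ` -/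
def T_HNX : Prop := ∀ (N : ℕ) (p : Nat.Primes) (P : Po (N + 1) (O p)) (a : Fin (N + 1) → O p),
  Mny P → eval a P = 0 → v p ((eval a (pderiv 0 P) : O p) : Qb) = 1 → ∀ w : Fin N → O p,
  ∃ u : O p, eval (fun i => a i + ((p : ℕ) : O p) ^ 2 * (Fin.cons u w : Fin (N + 1) → O p) i) P = 0

/-- multiples in the variables `X i.succ` -/
def T_NRX : Prop := ∀ (N : ℕ) (k : Type) [Field k] (P c : Po (N + 1) k), Irreducible P →
  Mny P → ¬ P ∣ c → ∃ (c' : Po N k) (A : Po (N + 1) k), c' ≠ 0 ∧ P ∣ up c' - c * A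

/-- the Nullstellensatz for a prime ideal -/
def T_NSI : Prop := ∀ (L : ℕ) (k : Type) [Field k] [IsAlgClosed k] (I : Ideal (Po L k))
  [I.IsPrime] (c : Po L k), c ∉ I → ∃ x, Zer I x ∧ eval x c ≠ 0

/-- Theorem X: rational self-maps of large degree, hypersurface version -/
def T_X : Prop := ∀ (N r d e : ℕ) (P b : Po (N + 1) Qb) (F : Tup (N + 1) Qb), 1 ≤ N → Hyp P r →
  r ≤ d → (∀ i, (F i).IsHomogeneous d) → P ∣ aeval F P → Cvi (Ideal.span {P}) F e →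
  d ^ (N - 1) < e → (∃ m, b.IsHomogeneous m) → ¬ P ∣ b →
  ∃ x : Fin (N + 1) → Qb, eval x P = 0 ∧ (∀ n : ℕ, eval ((pmap F)^[n] x) b ≠ 0) ∧
    ∀ c : Po (N + 1) Qb, (∀ n : ℕ, eval ((pmap F)^[n] x) c = 0) → P ∣ c

/-! ## D. From an arbitrary variety to a hypersurface -/

/-- projection data -/
def T_NFA : Prop := ∀ (L : ℕ) (k : Type) [Field k] [IsAlgClosed k] [CharZero k]
  (I : Ideal (Po L k)) [I.IsPrime], (∀ c ∈ I, ∀ t, homogeneousComponent t c ∈ I) →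
  (∃ i, X i ∉ I) → ∃ (N : ℕ) (l : Fin (N + 1) → Po L k), 1 ≤ N ∧ (∀ i, (l i).IsHomogeneous 1) ∧
    (∀ q : Po N k, aeval (fun j : Fin N => l j.succ) q ∈ I → q = 0) ∧
    (∀ i, ∃ Q : Polynomial (Po N k), Q.Monic ∧ evg (fun j : Fin N => l j.succ) (X i) Q ∈ I) ∧
    ∃ (Δ : Po N k) (R : Fin L → Polynomial (Po N k)), Δ ≠ 0 ∧
      ∀ i, aeval (fun j : Fin N => l j.succ) Δ * X i -
        evg (fun j : Fin N => l j.succ) (l 0) (R i) ∈ I

/-- the equation of the image -/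
def T_NFB : Prop := ∀ (L N : ℕ) (k : Type) [Field k] (I : Ideal (Po L k)) [I.IsPrime]
  (l : Fin (N + 1) → Po L k), (∀ c ∈ I, ∀ t, homogeneousComponent t c ∈ I) →
  (∀ i, (l i).IsHomogeneous 1) →
  (∀ q : Po N k, aeval (fun j : Fin N => l j.succ) q ∈ I → q = 0) →
  (∃ Q : Polynomial (Po N k), Q.Monic ∧ evg (fun j : Fin N => l j.succ) (l 0) Q ∈ I) →
  ∃ (P : Po (N + 1) k) (r : ℕ), Hyp P r ∧ ∀ q : Po (N + 1) k, aeval l q ∈ I ↔ P ∣ q

/-- the denominator -/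
def T_NFC : Prop := ∀ (L N r : ℕ) (k : Type) [Field k] (I : Ideal (Po L k)) [I.IsPrime]
  (l : Fin (N + 1) → Po L k) (P : Po (N + 1) k), 1 ≤ N →
  (∀ c ∈ I, ∀ t, homogeneousComponent t c ∈ I) → (∀ i, (l i).IsHomogeneous 1) →
  (∀ q : Po N k, aeval (fun j : Fin N => l j.succ) q ∈ I → q = 0) →
  (∀ i, ∃ Q : Polynomial (Po N k), Q.Monic ∧ evg (fun j : Fin N => l j.succ) (X i) Q ∈ I) →
  (∃ (Δ : Po N k) (R : Fin L → Polynomial (Po N k)), Δ ≠ 0 ∧
      ∀ i, aeval (fun j : Fin N => l j.succ) Δ * X i -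
        evg (fun j : Fin N => l j.succ) (l 0) (R i) ∈ I) →
  Hyp P r → (∀ q : Po (N + 1) k, aeval l q ∈ I ↔ P ∣ q) →
  ∃ (Δ : Po N k) (δ : ℕ), Pro I l P r Δ δ

/-- the self-map of the hypersurface -/
def T_LFT : Prop := ∀ (L N r δ d : ℕ) (k : Type) [Field k] (I : Ideal (Po L k)) [I.IsPrime]
  (l : Fin (N + 1) → Po L k) (P : Po (N + 1) k) (Δ : Po N k) (g : Tup L k), Pro I l P r Δ δ →
  (∀ c ∈ I, ∀ t, homogeneousComponent t c ∈ I) → (∀ i, (g i).IsHomogeneous d) →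
  (∀ c ∈ I, aeval g c ∈ I) → ∃ F : Tup (N + 1) k, (∀ i, (F i).IsHomogeneous (d + δ)) ∧
    (∀ i, aeval (fun j : Fin N => l j.succ) Δ * aeval g (l i) - aeval l (F i) ∈ I) ∧
    P ∣ aeval F P

/-- points of the hypersurface outside `Δ = 0` are images of unique points -/
def T_PTS : Prop := ∀ (L N r δ : ℕ) (k : Type) [Field k] (I : Ideal (Po L k)) [I.IsPrime]
  (l : Fin (N + 1) → Po L k) (P : Po (N + 1) k) (Δ : Po N k), Pro I l P r Δ δ →
  (∀ c ∈ I, ∀ t, homogeneousComponent t c ∈ I) →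
  (∀ a, Zer I a → eval (fun i => eval a (l i)) P = 0) ∧
  (∀ y : Fin (N + 1) → k, eval y P = 0 → eval (fun j : Fin N => y j.succ) Δ ≠ 0 →
    ∃ a, Zer I a ∧ ∀ i, eval a (l i) = y i) ∧
  ∀ a a', Zer I a → Zer I a' → (∀ i, eval a (l i) = eval a' (l i)) →
    eval (fun j : Fin N => eval a (l j.succ)) Δ ≠ 0 → a = a'

/-- the number of preimages for the self-map of the hypersurface -/
def T_TWI : Prop := ∀ (L N r δ d e : ℕ) (k : Type) [Field k] [IsAlgClosed k] [CharZero k]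
  (I : Ideal (Po L k)) [I.IsPrime] (l : Fin (N + 1) → Po L k) (P : Po (N + 1) k) (Δ : Po N k)
  (g : Tup L k) (F : Tup (N + 1) k), Pro I l P r Δ δ →
  (∀ c ∈ I, ∀ t, homogeneousComponent t c ∈ I) → (∀ i, (g i).IsHomogeneous d) → Slf I g →
  (∀ i, (F i).IsHomogeneous (d + δ)) →
  (∀ i, aeval (fun j : Fin N => l j.succ) Δ * aeval g (l i) - aeval l (F i) ∈ I) →
  Pvi I g e → Cvi (Ideal.span {P}) F ((d + δ) * e)

/-- the number of preimages in projective space under an iterate -/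
def T_PVI : Prop := ∀ (L d e n : ℕ) (k : Type) [Field k] (I : Ideal (Po L k)) [I.IsPrime]
  (f : Tup L k), (∀ i, (f i).IsHomogeneous d) → Slf I f → Pvi I f e → Pvi I (it f n) (e ^ n)

/-- the number of preimages for another representation of the same rational map -/
def T_PVR : Prop := ∀ (L d d' e : ℕ) (k : Type) [Field k] [IsAlgClosed k] (I : Ideal (Po L k))
  [I.IsPrime] (f g : Tup L k), (∀ c ∈ I, ∀ t, homogeneousComponent t c ∈ I) →
  (∀ i, (f i).IsHomogeneous d) → (∀ i, (g i).IsHomogeneous d') → 1 ≤ d' → Slf I f →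
  (∀ i j, f i * g j - f j * g i ∈ I) → (∃ i, g i ∉ I) → Pvi I f e → Pvi I g e

/-- transfer of a dense orbit -/
def T_TRV : Prop := ∀ (L N r δ d m : ℕ) (k : Type) [Field k] [IsAlgClosed k] [CharZero k]
  (I : Ideal (Po L k)) [I.IsPrime] (l : Fin (N + 1) → Po L k) (P : Po (N + 1) k) (Δ : Po N k)
  (g : Tup L k) (F : Tup (N + 1) k) (b : Po L k), Pro I l P r Δ δ →
  (∀ c ∈ I, ∀ t, homogeneousComponent t c ∈ I) → (∀ i, (g i).IsHomogeneous d) →
  (∀ c ∈ I, aeval g c ∈ I) → (∀ i, (F i).IsHomogeneous (d + δ)) →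
  (∀ i, aeval (fun j : Fin N => l j.succ) Δ * aeval g (l i) - aeval l (F i) ∈ I) →
  b.IsHomogeneous m → b ∉ I →
  ∃ b' : Po (N + 1) k, (∃ m', b'.IsHomogeneous m') ∧ ¬ P ∣ b' ∧
    ∀ y : Fin (N + 1) → k, eval y P = 0 → (∀ n : ℕ, eval ((pmap F)^[n] y) b' ≠ 0) →
      (∀ c : Po (N + 1) k, (∀ n : ℕ, eval ((pmap F)^[n] y) c = 0) → P ∣ c) →
      ∃ a, Zer I a ∧ (∀ n : ℕ, eval ((pmap g)^[n] a) b ≠ 0) ∧
        ∀ (t : ℕ) (h : Po L k), h.IsHomogeneous t → (∀ n : ℕ, eval ((pmap g)^[n] a) h = 0) →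
          h ∈ I

/-! ## E. Maps without base points -/

/-- generation over `k[f]` -/
def T_GEN : Prop := ∀ (L q : ℕ) (k : Type) [Field k] [IsAlgClosed k] (I : Ideal (Po L k))
  (f : Tup L k), 1 ≤ q → (∀ c ∈ I, ∀ t, homogeneousComponent t c ∈ I) →
  (∀ i, (f i).IsHomogeneous q) → (∀ x, Zer I x → pmap f x = 0 → x = 0) →
  ∃ M : ℕ, ∀ (t : ℕ) (u : Po L k), u.totalDegree ≤ t →
    ∃ c : (Fin L →₀ ℕ) → Po L k, (∀ m, q * (c m).totalDegree ≤ t) ∧
      u - ∑ m ∈ (Finset.Iic (Finsupp.equivFunOnFinite.symm fun _ : Fin L => M)),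
        monomial m 1 * aeval f (c m) ∈ I

/-- the Hilbert function from below -/
def T_HLO : Prop := ∀ (L N : ℕ) (k : Type) [Field k] (I : Ideal (Po L k)) (l : Fin N → Po L k),
  (∀ i, (l i).IsHomogeneous 1) → (∀ q : Po N k, aeval l q ∈ I → q = 0) →
  ∀ t, (t + N).choose N ≤ Hf I t

/-- the Hilbert function of a proper subset from above -/
def T_HUP : Prop := ∀ (L N : ℕ) (k : Type) [Field k] (I : Ideal (Po L k)) [I.IsPrime]
  (l : Fin N → Po L k) (c : Po L k), (∀ i, (l i).IsHomogeneous 1) →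
  (∀ c ∈ I, ∀ t, homogeneousComponent t c ∈ I) →
  (∀ q : Po N k, aeval l q ∈ I → q = 0) →
  (∀ i, ∃ Q : Polynomial (Po N k), Q.Monic ∧ evg l (X i) Q ∈ I) → c ∉ I →
  ∃ B : ℕ, ∀ t, Hf (I ⊔ Ideal.span {c}) t ≤ B * (t + 1) ^ (N - 1)

/-- a map without base points is dominant -/
def T_INR : Prop := ∀ (L N q : ℕ) (k : Type) [Field k] [IsAlgClosed k] (I : Ideal (Po L k))
  [I.IsPrime] (l : Fin N → Po L k) (f : Tup L k), 1 ≤ N → 1 ≤ q → (∀ i, (l i).IsHomogeneous 1) →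
  (∀ c ∈ I, ∀ t, homogeneousComponent t c ∈ I) →
  (∀ u : Po N k, aeval l u ∈ I → u = 0) →
  (∀ i, ∃ Q : Polynomial (Po N k), Q.Monic ∧ evg l (X i) Q ∈ I) →
  (∀ i, (f i).IsHomogeneous q) → (∀ x, Zer I x → pmap f x = 0 → x = 0) →
  (∀ c ∈ I, aeval f c ∈ I) → Slf I f

/-- the degree of a self-map: `θ` generates the function field over the image -/
def T_PEI : Prop := ∀ (L : ℕ) (k : Type) [Field k] [CharZero k] (I : Ideal (Po L k)) [I.IsPrime]
  (f : Tup L k), Slf I f → ∃ (e : ℕ) (θ : Po L k), 1 ≤ e ∧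
    (∀ u : Po L k, ∃ (s : Po L k) (c : Fin e → Po L k), s ∉ I ∧
      aeval f s * u - ∑ j : Fin e, θ ^ (j : ℕ) * aeval f (c j) ∈ I) ∧
    ∀ c : Fin e → Po L k, (∑ j : Fin e, θ ^ (j : ℕ) * aeval f (c j)) ∈ I → ∀ j, c j ∈ I

/-- the number of preimages is the degree -/
def T_CVD : Prop := ∀ (L e : ℕ) (k : Type) [Field k] [CharZero k] [IsAlgClosed k]
  (I : Ideal (Po L k)) [I.IsPrime] (f : Tup L k) (θ : Po L k), Slf I f → 1 ≤ e →
  (∀ u : Po L k, ∃ (s : Po L k) (c : Fin e → Po L k), s ∉ I ∧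
      aeval f s * u - ∑ j : Fin e, θ ^ (j : ℕ) * aeval f (c j) ∈ I) →
  (∀ c : Fin e → Po L k, (∑ j : Fin e, θ ^ (j : ℕ) * aeval f (c j)) ∈ I → ∀ j, c j ∈ I) →
  Cvi I f e

/-- the degree of a map without base points -/
def T_DGX : Prop := ∀ (L N q e : ℕ) (k : Type) [Field k] [CharZero k] [IsAlgClosed k]
  (I : Ideal (Po L k)) [I.IsPrime] (l : Fin N → Po L k) (f : Tup L k) (θ : Po L k), 1 ≤ N →
  2 ≤ q → (∀ i, (l i).IsHomogeneous 1) → (∀ c ∈ I, ∀ t, homogeneousComponent t c ∈ I) →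
  (∀ u : Po N k, aeval l u ∈ I → u = 0) →
  (∀ i, (f i).IsHomogeneous q) → (∀ x, Zer I x → pmap f x = 0 → x = 0) → Slf I f →
  (∀ u : Po L k, ∃ (s : Po L k) (c : Fin e → Po L k), s ∉ I ∧
      aeval f s * u - ∑ j : Fin e, θ ^ (j : ℕ) * aeval f (c j) ∈ I) → q ^ N ≤ e

/-- from the cone to the projective variety -/
def T_POL : Prop := ∀ (L n q : ℕ) (k : Type) [Field k] [IsAlgClosed k] (I : Ideal (Po L k))
  (f : Tup L k), 1 ≤ q → (∀ i, (f i).IsHomogeneous q) → (∃ i, X i ∉ I) → I.IsPrime →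
  Cvi I f (q ^ (n + 1)) → Pvi I f (q ^ n)

end Pool.Agent.H18.HX
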