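import Pool.Agent.H18.HX.Basic
import Pool.Agent.H18.HIT.PN

/-!
# Dense orbits on arbitrary varieties: assembly for an arbitrary variety
-/

open MvPolynomial
open Pool.Agent.H12.ZD (pmap v O Res DenseOrbit NoInv)
open Pool.Agent.H18.HIT

namespace Pool.Agent.H18.HX

/-- Theorem X over an arbitrary algebraically closed field of characteristic zero -/
def T_XK : Prop := ∀ (N r d e : ℕ) (k : Type) [Field k] [IsAlgClosed k] [CharZero k]
  (P b : Po (N + 1) k) (F : Tup (N + 1) k), 1 ≤ N → Hyp P r → r ≤ d →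
  (∀ i, (F i).IsHomogeneous d) → P ∣ aeval F P → Cvi (Ideal.span {P}) F e →
  d ^ (N - 1) < e → (∃ m, b.IsHomogeneous m) → ¬ P ∣ b →
  ∃ x : Fin (N + 1) → k, eval x P = 0 ∧ (∀ n : ℕ, eval ((pmap F)^[n] x) b ≠ 0) ∧
    ∀ c : Po (N + 1) k, (∀ n : ℕ, eval ((pmap F)^[n] x) c = 0) → P ∣ c

theorem exists_pow_lt (C A E : ℕ) (h : A < E) : ∃ j : ℕ, 1 ≤ j ∧ C * A ^ j < E ^ j := by
  rcases Nat.eq_zero_or_pos A with hA | hA
  · subst hA
    exact ⟨1, le_rfl, by simpa using h⟩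
  have hA' : (0 : ℝ) < A := by exact_mod_cast hA
  have h1 : (1 : ℝ) < (E : ℝ) / A := by
    rw [one_lt_div hA']
    exact_mod_cast h
  obtain ⟨j, hj⟩ := pow_unbounded_of_one_lt (C : ℝ) h1
  refine ⟨j + 1, by omega, ?_⟩
  have h2 : (C : ℝ) < ((E : ℝ) / A) ^ (j + 1) := by
    calc (C : ℝ) < ((E : ℝ) / A) ^ j := hj
      _ ≤ ((E : ℝ) / A) ^ (j + 1) := pow_le_pow_right₀ h1.le (by omega)
  rw [div_pow, lt_div_iff₀ (by positivity)] at h2
  exact_mod_cast h2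

theorem numeric (N g δ E : ℕ) (hg : 1 ≤ g) (hδ : 1 ≤ δ) (hE : 1 ≤ E)
    (h : N = 1 ∨ g ^ (N - 2) < E) (hN : 1 ≤ N) :
    ∃ j : ℕ, 1 ≤ j ∧ (g ^ j + δ) ^ (N - 1) < (g ^ j + δ) * E ^ j := by
  rcases h with h | h
  · subst h
    refine ⟨1, le_rfl, ?_⟩
    rw [Nat.sub_self, pow_zero, pow_one, pow_one]
    calc 1 < 2 * 1 := by norm_num
      _ ≤ (g + δ) * E := Nat.mul_le_mul (by omega) hE
  · rcases Nat.lt_or_ge N 2 with hN2 | hN2
    · have h1 : N = 1 := by omega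
      subst h1
      refine ⟨1, le_rfl, ?_⟩
      rw [Nat.sub_self, pow_zero, pow_one, pow_one]
      calc 1 < 2 * 1 := by norm_num
        _ ≤ (g + δ) * E := Nat.mul_le_mul (by omega) hE
    obtain ⟨j, hj, hj'⟩ := exists_pow_lt ((1 + δ) ^ (N - 2)) (g ^ (N - 2)) E h
    refine ⟨j, hj, ?_⟩
    have h1 : N - 1 = (N - 2) + 1 := by omega
    rw [h1, pow_succ, mul_comm]
    have h2 : 0 < g ^ j + δ := by omega
    apply Nat.mul_lt_mul_of_pos_left _ h2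
    have h3 : g ^ j + δ ≤ (1 + δ) * g ^ j := by
      have h4 : 1 ≤ g ^ j := Nat.one_le_pow _ _ hg
      nlinarith
    calc (g ^ j + δ) ^ (N - 2) ≤ ((1 + δ) * g ^ j) ^ (N - 2) := Nat.pow_le_pow_left h3 _
      _ = (1 + δ) ^ (N - 2) * (g ^ (N - 2)) ^ j := by
          rw [mul_pow, ← pow_mul, ← pow_mul, Nat.mul_comm j]
      _ < E ^ j := hj'

section

variable {L : ℕ} {k : Type} [Field k] [IsAlgClosed k] [CharZero k] {I : Ideal (Po L k)}

/-- the theorem for a map `g` whose degree is small, with a projection given -/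
theorem var0 (hX : T_XK) (hPVI : T_PVI) (hLFT : T_LFT) (hTWI : T_TWI) (hTRV : T_TRV)
    [hI : I.IsPrime] (hhom : ∀ c ∈ I, ∀ t, homogeneousComponent t c ∈ I) {N r δ dg E : ℕ}
    {l : Fin (N + 1) → Po L k} {P : Po (N + 1) k} {Δ : Po N k} (hpro : Pro I l P r Δ δ)
    {g : Tup L k} (hg : ∀ i, (g i).IsHomogeneous dg) (hdg : 1 ≤ dg) (hs : Slf I g) (hE : 1 ≤ E)
    (hcov : Pvi I g E) (hnum : N = 1 ∨ dg ^ (N - 2) < E) :
    ∃ j : ℕ, 1 ≤ j ∧ ∀ (m : ℕ) (b : Po L k), b.IsHomogeneous m → b ∉ I →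
      ∃ a, Zer I a ∧ (∀ n : ℕ, eval ((pmap (it g j))^[n] a) b ≠ 0) ∧
        ∀ (t : ℕ) (h : Po L k), h.IsHomogeneous t →
          (∀ n : ℕ, eval ((pmap (it g j))^[n] a) h = 0) → h ∈ I := by
  have hr : 1 ≤ r := by
    by_contra hr0
    have hr0' : r = 0 := by omega
    apply hpro.hyp.irr.not_isUnit
    have h1 : P.totalDegree = 0 := by
      have := hpro.hyp.hom.totalDegree_le
      omega
    rw [totalDegree_eq_zero_iff_eq_C] at h1
    rw [h1, isUnit_map_iff, isUnit_iff_ne_zero]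
    intro h0
    rw [h0, C_0] at h1
    exact hpro.hyp.irr.ne_zero h1
  have hδ : 1 ≤ δ := hr.trans hpro.le
  obtain ⟨j, hj, hj'⟩ := numeric N dg δ E hdg hδ hE hnum hpro.one
  refine ⟨j, hj, fun m b hb hbI => ?_⟩
  have hgj := it_hom hg j
  have hsj := hs.it j
  have hcj := hPVI L dg E j k I g hg hs hcov
  obtain ⟨F, hF, hFl, hFP⟩ := hLFT L N r δ (dg ^ j) k I l P Δ (it g j) hpro hhom hgj hsj.inv
  have hcF := hTWI L N r δ (dg ^ j) (E ^ j) k I l P Δ (it g j) F hpro hhom hgj hsj hF hFl hcj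
  obtain ⟨b', hb', hPb', htr⟩ := hTRV L N r δ (dg ^ j) m k I l P Δ (it g j) F b hpro hhom hgj
    hsj.inv hF hFl hb hbI
  obtain ⟨y, hy, hyb, hyd⟩ := hX N r (dg ^ j + δ) ((dg ^ j + δ) * E ^ j) k P b' F hpro.one
    hpro.hyp (hpro.le.trans (Nat.le_add_left _ _)) hF hFP hcF hj' hb' hPb'
  exact htr y hy hyb hyd

/-- membership of a product of elements outside a prime ideal -/
theorem prod_notMem [hI : I.IsPrime] (s : Finset ℕ) (q : ℕ → Po L k) (h : ∀ i ∈ s, q i ∉ I) :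
    ∏ i ∈ s, q i ∉ I := by
  intro hmem
  obtain ⟨i, hi, hi'⟩ := (Ideal.IsPrime.prod_mem_iff).mp hmem
  exact h i hi hi'

/-- the theorem for a map `g` whose degree is small: all points of the orbit -/
theorem var1 (hX : T_XK) (hPVI : T_PVI) (hLFT : T_LFT) (hTWI : T_TWI) (hTRV : T_TRV)
    [hI : I.IsPrime] (hhom : ∀ c ∈ I, ∀ t, homogeneousComponent t c ∈ I) {N r δ dg E : ℕ}
    {l : Fin (N + 1) → Po L k} {P : Po (N + 1) k} {Δ : Po N k} (hpro : Pro I l P r Δ δ)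
    {g : Tup L k} (hg : ∀ i, (g i).IsHomogeneous dg) (hdg : 1 ≤ dg) (hs : Slf I g) (hE : 1 ≤ E)
    (hcov : Pvi I g E) (hnum : N = 1 ∨ dg ^ (N - 2) < E) (m : ℕ) (b : Po L k)
    (hb : b.IsHomogeneous m) (hbI : b ∉ I) :
    ∃ a, Zer I a ∧ (∀ n : ℕ, eval ((pmap g)^[n] a) b ≠ 0) ∧
      ∀ (t : ℕ) (h : Po L k), h.IsHomogeneous t →
        (∀ n : ℕ, eval ((pmap g)^[n] a) h = 0) → h ∈ I := by
  obtain ⟨j, hj, hall⟩ := var0 hX hPVI hLFT hTWI hTRV hhom hpro hg hdg hs hE hcov hnum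
  have hB : (∏ i ∈ Finset.range j, aeval (it g i) b).IsHomogeneous
      (∑ i ∈ Finset.range j, dg ^ i * m) :=
    IsHomogeneous.prod _ _ _ fun i _ => aeval_hom (it_hom hg i) hb
  have hBI : (∏ i ∈ Finset.range j, aeval (it g i) b) ∉ I :=
    prod_notMem _ _ fun i _ hi => hbI ((hs.it i).inj b hi)
  obtain ⟨a, ha, hab, had⟩ := hall _ _ hB hBI
  refine ⟨a, ha, fun n => ?_, fun t h hh hh0 => had t h hh fun n => ?_⟩
  · have h1 := hab (n / j)
    rw [map_prod, Finset.prod_ne_zero_iff] at h1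
    have h2 := h1 (n % j) (Finset.mem_range.mpr (Nat.mod_lt _ hj))
    rw [eval_aeval, pmap_it, pmap_it_iterate, ← Function.iterate_add_apply,
      Nat.mod_add_div] at h2
    exact h2
  · rw [pmap_it_iterate]
    exact hh0 _

end

end Pool.Agent.H18.HX
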